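import Pool.Agent.Y892.DP.C1

/-!
# Automorphisms of order prime to `p`
-/

open scoped Classical BigOperators

set_option linter.unusedSectionVars false
set_option linter.style.haveILetI false

noncomputable section

namespace Pool.Agent.Y892.DP

open Pool.Agent.Y63.KR Pool.Agent.Y63.AWC

variable {G : Type} [Group G]

lemma conj_pow {N : Subgroup G} {e : G} (he : conjSub e N = N) (k : ℕ) : conjSub (e ^ k) N = N := by
  rw [conjSub_eq_iff] at he ⊢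
  exact Subgroup.pow_mem _ he k

lemma conj_sup {N : Subgroup G} {e : G} (he : conjSub e N = N) {x : G}
    (hx : x ∈ N ⊔ Subgroup.zpowers e) : conjSub x N = N := by
  rw [conjSub_eq_iff] at he ⊢
  have : N ⊔ Subgroup.zpowers e ≤ Subgroup.normalizer (N : Set G) := by
    refine sup_le Subgroup.le_normalizer ?_
    rw [Subgroup.zpowers_le]
    exact he
  exact this hx

lemma pairSum_pow (N C : Subgroup G) (e : G) (Φ : G → G → ℂ) (k : ℕ) :
    pairSum N C (e ^ k) Φ 0 1 = pairSum N C e Φ 0 k := by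
  unfold pairSum
  exact finsum_eq_of_bijective (Equiv.subtypeEquivRight (fun q => by rw [pow_zero, pow_zero, pow_one]))
    (Equiv.bijective _) (fun q => rfl)

theorem inv_pairs (hpair : S_PAIR) (p : ℕ) [Fact p.Prime] [Finite G] (N : Subgroup G) (e : G)
    (he : conjSub e N = N) (k : ℕ) :
    (Nat.card N : ℂ) * (invSum p N (e ^ k) : ℂ) = pairSum N ⊤ e (wt2 p N) 0 k := by
  have h1 := hpair p G N (e ^ k) (conj_pow he k)
  have h2 := pairs2_eq p N ⊤ (e ^ k)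
  simp only [inf_top_eq, Subgroup.mem_top, and_true] at h2
  rw [pairSum_pow] at h2
  rw [← h2, ← h1]
  push_cast
  rfl

theorem zero_pairs (hz : S_ZPAIR) (p : ℕ) [Fact p.Prime] [Finite G] (N : Subgroup G) (e : G)
    (he : conjSub e N = N) (k : ℕ) :
    (Nat.card N : ℂ) * (invZero p N (e ^ k) : ℂ) =
      pairSum N ⊤ e (fun x y => dz p N (x * y * x⁻¹ * y⁻¹)) 0 k := by
  have h1 := hz p G N (e ^ k) (conj_pow he k)
  rw [pairSum_pow] at h1
  exact h1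

theorem kr_sum (hpair : S_PAIR) (hsl : S_SL) (hkrn : S_KRN) (p : ℕ) [Fact p.Prime] [Finite G]
    (N : Subgroup G) (e : G) (m d : ℕ) (he : conjSub e N = N) (hm : 0 < m)
    (hk : ∀ k : ℕ, e ^ k ∈ N ↔ m ∣ k) (hpm : ¬ p ∣ m) (hd : d ∣ m) :
    (Nat.card ↥(N ⊔ Subgroup.zpowers (e ^ d)) : ℂ) *
        (krSum p ↥(N ⊔ Subgroup.zpowers (e ^ d)) : ℂ) =
      ∑ i ∈ Finset.range (m / d), ∑ j ∈ Finset.range (m / d),
        (Nat.card N : ℂ) * (invSum p N (e ^ (Nat.gcd (Nat.gcd (d * i) (d * j)) m)) : ℂ) := by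
  have h1 := hkrn p G N ⊤ e m d he hm hk hpm hd
  rw [top_inf_eq, inf_top_eq] at h1
  rw [h1]
  refine Finset.sum_congr rfl fun i _ => Finset.sum_congr rfl fun j _ => ?_
  rw [inv_pairs hpair p N e he]
  exact hsl G N ⊤ e m (wt2 p N) he hm hk (fun x y _ _ => wt2_mul p _ x y)
    (fun x y _ _ => wt2_swap p _ x y) (d * i) (d * j)

theorem zero_sum (hz : S_ZPAIR) (hdzc : S_DZC) (hsl : S_SL) (hzn : S_ZN) (p : ℕ) [Fact p.Prime]
    [Finite G] (N : Subgroup G) (e : G) (m d : ℕ) (he : conjSub e N = N) (hm : 0 < m)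
    (hk : ∀ k : ℕ, e ^ k ∈ N ↔ m ∣ k) (hpm : ¬ p ∣ m) (hd : d ∣ m) :
    (Nat.card ↥(N ⊔ Subgroup.zpowers (e ^ d)) : ℂ) *
        (numDefectZero p ↥(N ⊔ Subgroup.zpowers (e ^ d)) : ℂ) =
      ∑ i ∈ Finset.range (m / d), ∑ j ∈ Finset.range (m / d),
        (Nat.card N : ℂ) * (invZero p N (e ^ (Nat.gcd (Nat.gcd (d * i) (d * j)) m)) : ℂ) := by
  rw [hzn p G N e m d he hm hk hpm hd]
  refine Finset.sum_congr rfl fun i _ => Finset.sum_congr rfl fun j _ => ?_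
  rw [zero_pairs hz p N e he]
  refine hsl G N ⊤ e m (fun x y => dz p N (x * y * x⁻¹ * y⁻¹)) he hm hk ?_ ?_ (d * i) (d * j)
  · intro x y hx _
    have : x * (x * y) * x⁻¹ * (x * y)⁻¹ = x * (x * y * x⁻¹ * y⁻¹) * x⁻¹ := by group
    rw [this]
    exact hdzc p G N x _ (conj_sup he hx)
  · intro x y hx _
    have h1 : y * x⁻¹ * y⁻¹ * x⁻¹⁻¹ = x⁻¹ * (x * y * x⁻¹ * y⁻¹) * x⁻¹⁻¹ := by group
    rw [h1]
    exact hdzc p G N x⁻¹ _ (conj_sup he (Subgroup.inv_mem _ hx))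

section jor

variable (hjor : S_JOR)

include hjor in
theorem moebius_of (m : ℕ) (hm : 0 < m) (c : ℂ) (A : ℕ → ℤ) (B : ℕ → ℂ)
    (h : ∀ d, d ∣ m → B d = ∑ i ∈ Finset.range (m / d), ∑ j ∈ Finset.range (m / d),
      c * (A (Nat.gcd (Nat.gcd (d * i) (d * j)) m) : ℂ)) :
    (jordan2 m : ℂ) * (c * (A 1 : ℂ)) =
      ∑ d ∈ m.divisors, (ArithmeticFunction.moebius d : ℂ) * B d := by
  have h1 := hjor m (fun k => c * (A k : ℂ)) hm
  rw [h1]
  refine Finset.sum_congr rfl fun d hd => ?_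
  rw [h d (Nat.dvd_of_mem_divisors hd)]

end jor

theorem formula_inv1 (hpair : S_PAIR) (hsl : S_SL) (hjor : S_JOR) (hkrn : S_KRN) (p : ℕ)
    [Fact p.Prime] [Finite G] (N : Subgroup G) (e : G) (m : ℕ) (he : conjSub e N = N) (hm : 0 < m)
    (hk : ∀ k : ℕ, e ^ k ∈ N ↔ m ∣ k) (hpm : ¬ p ∣ m) :
    (jordan2 m : ℤ) * ((Nat.card N : ℤ) * invSum p N e) = ∑ d ∈ m.divisors,
      ArithmeticFunction.moebius d * ((Nat.card ↥(N ⊔ Subgroup.zpowers (e ^ d)) : ℤ) *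
        krSum p ↥(N ⊔ Subgroup.zpowers (e ^ d))) := by
  have h1 := moebius_of hjor m hm (Nat.card N : ℂ) (fun k => invSum p N (e ^ k))
    (fun d => (Nat.card ↥(N ⊔ Subgroup.zpowers (e ^ d)) : ℂ) *
      (krSum p ↥(N ⊔ Subgroup.zpowers (e ^ d)) : ℂ))
    (fun d hd => kr_sum hpair hsl hkrn p N e m d he hm hk hpm hd)
  rw [pow_one] at h1
  exact_mod_cast h1

theorem formula_zero1 (hz : S_ZPAIR) (hdzc : S_DZC) (hsl : S_SL) (hjor : S_JOR) (hzn : S_ZN)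
    (p : ℕ) [Fact p.Prime] [Finite G] (N : Subgroup G) (e : G) (m : ℕ) (he : conjSub e N = N)
    (hm : 0 < m) (hk : ∀ k : ℕ, e ^ k ∈ N ↔ m ∣ k) (hpm : ¬ p ∣ m) :
    (jordan2 m : ℤ) * ((Nat.card N : ℤ) * (invZero p N e : ℤ)) = ∑ d ∈ m.divisors,
      ArithmeticFunction.moebius d * ((Nat.card ↥(N ⊔ Subgroup.zpowers (e ^ d)) : ℤ) *
        (numDefectZero p ↥(N ⊔ Subgroup.zpowers (e ^ d)) : ℤ)) := by
  have h1 := moebius_of hjor m hm (Nat.card N : ℂ) (fun k => (invZero p N (e ^ k) : ℤ))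
    (fun d => (Nat.card ↥(N ⊔ Subgroup.zpowers (e ^ d)) : ℂ) *
      (numDefectZero p ↥(N ⊔ Subgroup.zpowers (e ^ d)) : ℂ))
    (fun d hd => by
      rw [zero_sum hz hdzc hsl hzn p N e m d he hm hk hpm hd]
      simp only [Int.cast_natCast])
  rw [pow_one] at h1
  exact_mod_cast h1

lemma jordan_pos (m : ℕ) (hm : 0 < m) : 0 < jordan2 m := by
  unfold jordan2
  rw [Nat.card_pos_iff]
  refine ⟨?_, inferInstance⟩
  rcases Nat.lt_or_ge 1 m with h | h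
  · exact ⟨⟨(⟨1, h⟩, ⟨0, hm⟩), by simp⟩⟩
  · have : m = 1 := by omega
    subst this
    exact ⟨⟨(⟨0, hm⟩, ⟨0, hm⟩), by simp⟩⟩

lemma order_pow {N : Subgroup G} {e : G} {m : ℕ} (hm : 0 < m) (hk : ∀ k : ℕ, e ^ k ∈ N ↔ m ∣ k)
    (c : ℕ) : 0 < m / Nat.gcd m c ∧ ∀ k : ℕ, (e ^ c) ^ k ∈ N ↔ m / Nat.gcd m c ∣ k := by
  have hg : 0 < Nat.gcd m c := Nat.gcd_pos_of_pos_left c hm
  refine ⟨Nat.div_pos (Nat.gcd_le_left c hm) hg, fun k => ?_⟩
  rw [← pow_mul, hk]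
  have h1 : m = Nat.gcd m c * (m / Nat.gcd m c) := (Nat.mul_div_cancel' (Nat.gcd_dvd_left m c)).symm
  have h2 : c = Nat.gcd m c * (c / Nat.gcd m c) := (Nat.mul_div_cancel' (Nat.gcd_dvd_right m c)).symm
  have h3 : Nat.Coprime (m / Nat.gcd m c) (c / Nat.gcd m c) := Nat.coprime_div_gcd_div_gcd hg
  constructor
  · intro h
    have h4 : Nat.gcd m c * (m / Nat.gcd m c) ∣ Nat.gcd m c * ((c / Nat.gcd m c) * k) := by
      rw [← h1, ← mul_assoc, ← h2]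
      exact h
    exact h3.dvd_of_dvd_mul_left (Nat.dvd_of_mul_dvd_mul_left hg h4)
  · intro h
    conv_lhs => rw [h1]
    conv_rhs => rw [h2, mul_assoc]
    exact Nat.mul_dvd_mul_left _ (Dvd.dvd.mul_left h _)

theorem equiv_inv (hpair : S_PAIR) (hsl : S_SL) (hjor : S_JOR) (hkrn : S_KRN) (hz : S_ZPAIR)
    (hdzc : S_DZC) (hzn : S_ZN) (p : ℕ) [Fact p.Prime] [Finite G] (N : Subgroup G) (e : G) (m : ℕ)
    (he : conjSub e N = N) (hm : 0 < m) (hk : ∀ k : ℕ, e ^ k ∈ N ↔ m ∣ k) (hpm : ¬ p ∣ m) :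
    (∀ c : ℕ, invSum p N (e ^ c) = (invZero p N (e ^ c) : ℤ)) ↔
      ∀ c : ℕ, krSum p ↥(N ⊔ Subgroup.zpowers (e ^ c)) =
        (numDefectZero p ↥(N ⊔ Subgroup.zpowers (e ^ c)) : ℤ) := by
  have hpm' : ∀ c : ℕ, ¬ p ∣ m / Nat.gcd m c := fun c h =>
    hpm (h.trans (Nat.div_dvd_of_dvd (Nat.gcd_dvd_left m c)))
  constructor
  · intro h c
    obtain ⟨h1, h2⟩ := order_pow hm hk c
    have h3 := kr_sum hpair hsl hkrn p N (e ^ c) _ 1 (conj_pow he c) h1 h2 (hpm' c) (one_dvd _)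
    have h4 := zero_sum hz hdzc hsl hzn p N (e ^ c) _ 1 (conj_pow he c) h1 h2 (hpm' c) (one_dvd _)
    have h5 : ∀ k : ℕ, (invSum p N ((e ^ c) ^ k) : ℂ) = (invZero p N ((e ^ c) ^ k) : ℂ) := by
      intro k
      rw [← pow_mul, h (c * k)]
      simp
    simp only [h5] at h3
    rw [← h4, pow_one] at h3
    have h6 := mul_left_cancel₀ (show (Nat.card ↥(N ⊔ Subgroup.zpowers (e ^ c)) : ℂ) ≠ 0 by
      exact_mod_cast Nat.card_pos.ne') h3
    exact_mod_cast h6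
  · intro h c
    obtain ⟨h1, h2⟩ := order_pow hm hk c
    have h3 := formula_inv1 hpair hsl hjor hkrn p N (e ^ c) _ (conj_pow he c) h1 h2 (hpm' c)
    have h4 := formula_zero1 hz hdzc hsl hjor hzn p N (e ^ c) _ (conj_pow he c) h1 h2 (hpm' c)
    have h5 : ∀ k : ℕ, krSum p ↥(N ⊔ Subgroup.zpowers ((e ^ c) ^ k)) =
        (numDefectZero p ↥(N ⊔ Subgroup.zpowers ((e ^ c) ^ k)) : ℤ) := by
      intro k
      rw [← pow_mul]
      exact h (c * k)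
    simp only [h5] at h3
    rw [← h4] at h3
    have h6 : (jordan2 (m / Nat.gcd m c) : ℤ) ≠ 0 := by
      exact_mod_cast (jordan_pos _ h1).ne'
    have h7 : (Nat.card N : ℤ) ≠ 0 := by
      exact_mod_cast Nat.card_pos.ne'
    exact mul_left_cancel₀ h7 (mul_left_cancel₀ h6 h3)

end Pool.Agent.Y892.DP
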