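import Pool.Agent.Y892.DP.Defs

/-!
# Statements of the blocks of project DP
-/

open scoped Classical BigOperators

noncomputable section

namespace Pool.Agent.Y892.DP

open Pool.Agent.Y63.KR Pool.Agent.Y63.AWC

/-- W1: the alternating number of chains is invariant under order isomorphisms -/
def S_W1 : Prop := ∀ (G H : Type) [Group G] [Group H] [Finite G] [Finite H]
  (X : Set (Subgroup G)) (Y : Set (Subgroup H)) (f : Subgroup G → Subgroup H),
  (∀ P ∈ X, ∀ Q ∈ X, (f P ≤ f Q ↔ P ≤ Q)) → f '' X = Y → w X = w Y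

/-- W2: cones -/
def S_W2 : Prop := ∀ (G : Type) [Group G] [Finite G] (X : Set (Subgroup G)) (U : Subgroup G),
  U ∈ X → (∀ P ∈ X, P ⊔ U ∈ X) → w X = 0

/-- W3: interior operators -/
def S_W3 : Prop := ∀ (G : Type) [Group G] [Finite G] (X Y : Set (Subgroup G))
  (r : Subgroup G → Subgroup G), Y ⊆ X → (∀ P ∈ X, r P ∈ Y ∧ r P ≤ P) →
  (∀ P ∈ X, ∀ Q ∈ X, P ≤ Q → r P ≤ r Q) → (∀ P ∈ Y, r P = P) → w X = w Y

/-- GEN: orbit counting and exchange of summation -/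
def S_GEN : Prop := ∀ (G : Type) [Group G] [Finite G] (N : Subgroup G) (X : Set (Subgroup G))
  (F : Set (Subgroup G) → ℤ) (T : Type) [Fintype T] (S : T → Set G) (c : T → ℂ) (A : ℂ),
  (∀ n ∈ N, ∀ P ∈ X, conjSub n P ∈ X) →
  (∀ n ∈ N, ∀ σ : Ch X, F (conjSub n '' σ.1) = F σ.1) →
  (∀ σ : Ch X, A * (Nat.card ↥(N ⊓ chainStabilizer σ.1) : ℂ) * (F σ.1 : ℂ) =
    ∑ t : T, if S t ⊆ (chainStabilizer σ.1 : Set G) then c t else 0) →
  A * (Nat.card N : ℂ) * (altSum N X F : ℂ) = ∑ t : T, c t * (w (fx X (S t)) : ℂ)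

/-- PC: the number of characters over a linear character of a central subgroup -/
def S_PC : Prop := ∀ (G : Type) [Group G] [Finite G] (Z : Subgroup G) (lam : Z →* ℂˣ)
  (H : Subgroup G), Z ≤ Subgroup.center G → Z ≤ H →
  (Nat.card H : ℂ) * (Nat.card Z : ℂ) * (numOver lam H : ℂ) =
    ∑ᶠ a : Z, (lam a : ℂ) *
      (Nat.card {q : G × G // q.1 ∈ H ∧ q.2 ∈ H ∧ q.1 * q.2 = (a : G) * (q.2 * q.1)} : ℂ)

/-- CQ: passing to the quotient by a central subgroup -/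
def S_CQ : Prop := ∀ (p : ℕ) [Fact p.Prime] (G : Type) [Group G] [Finite G] (Z₀ K : Subgroup G)
  [K.Normal] (S : Set G), K ≤ Subgroup.center G → IsSyl p Z₀ K →
  w (fx (above p Z₀) S) = w (fx (above p (⊥ : Subgroup (G ⧸ K))) ((fun g : G => (g : G ⧸ K)) '' S))

/-- C1: only `p`-regular commutators contribute -/
def S_C1 : Prop := ∀ (p : ℕ) [Fact p.Prime] (G : Type) [Group G] [Finite G] (Z₀ Z : Subgroup G)
  (a : G), Z ≤ Subgroup.center G → IsSyl p Z₀ Z → a ∈ Z → p ∣ orderOf a → cc p Z₀ a = 0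

/-- C2: powers -/
def S_C2 : Prop := ∀ (p : ℕ) (G : Type) [Group G] [Finite G] (Z₀ : Subgroup G)
  (a : G) (j : ℕ), a ∈ Subgroup.center G → Nat.Coprime j (Nat.card G) →
  cc p Z₀ (a ^ j) = cc p Z₀ a

/-- KR: the Knörr–Robinson sum and commuting pairs -/
def S_KRP : Prop := ∀ (p : ℕ) [Fact p.Prime] (G : Type) [Group G] [Finite G],
  (Nat.card G : ℤ) * krSum p G =
    ∑ᶠ q : {q : G × G // q.1 * q.2 = q.2 * q.1}, w (fx (above p ⊥) {q.1.1, q.1.2})

/-- C3: sums over central subgroups -/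
def S_C3 : Prop := ∀ (p : ℕ) [Fact p.Prime] (G : Type) [Group G] [Finite G] (Z₀ K : Subgroup G)
  [K.Normal], K ≤ Subgroup.center G → IsSyl p Z₀ K →
  ∑ᶠ a : K, cc p Z₀ (a : G) = (Nat.card K : ℤ) * (Nat.card G : ℤ) * krSum p (G ⧸ K)

/-- DUAL: orthogonality for the characters trivial on a subgroup -/
def S_DUAL : Prop := ∀ (A : Type) [CommGroup A] [Finite A] (K : Subgroup A) (a : A),
  ∑ᶠ lam : {lam : A →* ℂˣ // ∀ k ∈ K, lam k = 1}, (lam.1 a : ℂ) =
    if a ∈ K then (K.index : ℂ) else 0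

/-- MOB: Möbius inversion for functions of characters invariant under Galois conjugation -/
def S_MOB : Prop := ∀ (A : Type) [CommGroup A] [Finite A] (D : (A →* ℂˣ) → ℤ),
  (∀ (lam : A →* ℂˣ) (j : ℕ), Nat.Coprime j (Nat.card A) → D (lam ^ j) = D lam) →
  ∀ lam : A →* ℂˣ, ((orderOf lam).totient : ℤ) * D lam =
    ∑ d ∈ (orderOf lam).divisors, ArithmeticFunction.moebius (orderOf lam / d) *
      ∑ᶠ mu : {mu : A →* ℂˣ // ∀ k : A, (lam ^ (orderOf lam / d)) k = 1 → mu k = 1}, D mu.1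

/-- GAL: Galois conjugates of irreducible characters -/
def S_GAL : Prop := ∀ (n j : ℕ), 0 < n → Nat.Coprime j n → ∃ σ : ℂ ≃+* ℂ,
  (∀ z : ℂ, z ^ n = 1 → σ z = z ^ j) ∧
  ∀ (G : Type) [Group G] [Finite G] (χ : G → ℂ), IsIrreducibleCharacter χ →
    IsIrreducibleCharacter (fun g => σ (χ g))

/-- INF: inflation -/
def S_INF : Prop := ∀ (G : Type) [Group G] [Finite G] (K : Subgroup G) [K.Normal] (R : ℂ → Prop),
  K ≤ Subgroup.center G →
  Nat.card {θ : G → ℂ // IsIrreducibleCharacter θ ∧ (∀ k ∈ K, θ k = θ 1) ∧ R (θ 1)} =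
  Nat.card {χ : G ⧸ K → ℂ // IsIrreducibleCharacter χ ∧ R (χ 1)}

end Pool.Agent.Y892.DP
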