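import Pool.Agent.Y892.DP.Defs2
import Pool.Agent.Y892.DP.Stm

/-!
# Statements of the blocks of the second part of project DP
-/

open scoped Classical BigOperators

noncomputable section

namespace Pool.Agent.Y892.DP

open Pool.Agent.Y63.KR Pool.Agent.Y63.AWC

/-- FIX: the number of characters fixed by a coset -/
def S_FIX : Prop := ∀ (G : Type) [Group G] [Finite G] (N : Subgroup G) (e : G) (H : Subgroup G),
  conjSub e N = N → Nat.card ↥(N ⊓ H) * numFix N e H =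
    Nat.card {q : G × G // (q.1 ∈ N ∧ q.1 ∈ H) ∧ (q.2 ∈ H ∧ e⁻¹ * q.2 ∈ N) ∧
      q.1 * q.2 = q.2 * q.1}

/-- PAIR: the alternating sum of invariant characters and commuting pairs -/
def S_PAIR : Prop := ∀ (p : ℕ) [Fact p.Prime] (G : Type) [Group G] [Finite G] (N : Subgroup G)
  (e : G), conjSub e N = N →
  (Nat.card N : ℤ) * invSum p N e = pairs2 p N {y | e⁻¹ * y ∈ N}

/-- RED: reduction to automorphisms of order prime to `p` -/
def S_RED : Prop := ∀ (p : ℕ) [Fact p.Prime] (G : Type) [Group G] [Finite G] (N : Subgroup G)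
  (a b : G), a * b = b * a → (∃ k : ℕ, a ^ p ^ k = 1) → ¬ p ∣ orderOf b →
  conjSub (a * b) N = N →
  pairs2 p N {y | (a * b)⁻¹ * y ∈ N} =
    ∑ᶠ u : {u : G // a⁻¹ * u ∈ N ∧ (∃ k : ℕ, u ^ p ^ k = 1) ∧ Subgroup.zpowers u ⊓ N = ⊥},
      pairs2 p (N ⊓ Subgroup.centralizer {u.1}) {v | b⁻¹ * v ∈ N ∧ v * u.1 = u.1 * v}

/-- SL: substitutions in pairs -/
def S_SL : Prop := ∀ (G : Type) [Group G] [Finite G] (N C : Subgroup G) (e : G) (m : ℕ)
  (Φ : G → G → ℂ), conjSub e N = N → 0 < m → (∀ k : ℕ, e ^ k ∈ N ↔ m ∣ k) →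
  (∀ x y : G, x ∈ N ⊔ Subgroup.zpowers e → y ∈ N ⊔ Subgroup.zpowers e → Φ x (x * y) = Φ x y) →
  (∀ x y : G, x ∈ N ⊔ Subgroup.zpowers e → y ∈ N ⊔ Subgroup.zpowers e → Φ y x⁻¹ = Φ x y) →
  ∀ i j : ℕ, pairSum N C e Φ i j = pairSum N C e Φ 0 (Nat.gcd (Nat.gcd i j) m)

/-- JOR: Möbius inversion for pairs -/
def S_JOR : Prop := ∀ (m : ℕ) (a : ℕ → ℂ), 0 < m →
  (jordan2 m : ℂ) * a 1 = ∑ d ∈ m.divisors, (ArithmeticFunction.moebius d : ℂ) *
    ∑ i ∈ Finset.range (m / d), ∑ j ∈ Finset.range (m / d), a (Nat.gcd (Nat.gcd (d * i) (d * j)) m)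

/-- KRN: the Knörr–Robinson sum of an extension by a cyclic group of order prime to `p` -/
def S_KRN : Prop := ∀ (p : ℕ) [Fact p.Prime] (G : Type) [Group G] [Finite G] (N C : Subgroup G)
  (e : G) (m d : ℕ), conjSub e N = N → 0 < m → (∀ k : ℕ, e ^ k ∈ N ↔ m ∣ k) → ¬ p ∣ m → d ∣ m →
  (Nat.card ↥(C ⊓ (N ⊔ Subgroup.zpowers (e ^ d))) : ℂ) *
      (krSum p ↥(C ⊓ (N ⊔ Subgroup.zpowers (e ^ d))) : ℂ) =
    ∑ i ∈ Finset.range (m / d), ∑ j ∈ Finset.range (m / d),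
      pairSum N C e (wt2 p (N ⊓ C)) (d * i) (d * j)

/-- ZPAIR: invariant characters of defect zero and commutators -/
def S_ZPAIR : Prop := ∀ (p : ℕ) [Fact p.Prime] (G : Type) [Group G] [Finite G] (N : Subgroup G)
  (e : G), conjSub e N = N →
  (Nat.card N : ℂ) * (invZero p N e : ℂ) =
    pairSum N ⊤ e (fun x y => dz p N (x * y * x⁻¹ * y⁻¹)) 0 1

/-- DZC: invariance under conjugation -/
def S_DZC : Prop := ∀ (p : ℕ) (G : Type) [Group G] [Finite G] (N : Subgroup G) (x g : G),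
  conjSub x N = N → dz p N (x * g * x⁻¹) = dz p N g

/-- MUL: restriction of characters to a normal subgroup with cyclic quotient is multiplicity free -/
def S_MUL : Prop := ∀ (G : Type) [Group G] [Fintype G] (N : Subgroup G) [N.Normal] (e : G)
  (χ : G → ℂ) (ψ : N → ℂ), N ⊔ Subgroup.zpowers e = ⊤ →
  Pool.Agent.Helper884.IC.IsIrrChar χ → Pool.Agent.Helper884.IC.IsIrrChar ψ → mult N χ ψ ≤ 1

/-- ZN: characters of defect zero of an extension by a cyclic group of order prime to `p` -/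
def S_ZN : Prop := ∀ (p : ℕ) [Fact p.Prime] (G : Type) [Group G] [Finite G] (N : Subgroup G)
  (e : G) (m d : ℕ), conjSub e N = N → 0 < m → (∀ k : ℕ, e ^ k ∈ N ↔ m ∣ k) → ¬ p ∣ m → d ∣ m →
  (Nat.card ↥(N ⊔ Subgroup.zpowers (e ^ d)) : ℂ) *
      (numDefectZero p ↥(N ⊔ Subgroup.zpowers (e ^ d)) : ℂ) =
    ∑ i ∈ Finset.range (m / d), ∑ j ∈ Finset.range (m / d),
      pairSum N ⊤ e (fun x y => dz p N (x * y * x⁻¹ * y⁻¹)) (d * i) (d * j)

end Pool.Agent.Y892.DP
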