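import Pool.Agent.Y892.DP.Stm
import Pool.Agent.Y63.KR.Pairs

/-!
# The main pair formula for the projective alternating sum
-/

open scoped Classical BigOperators

set_option linter.unusedSectionVars false

noncomputable section

namespace Pool.Agent.Y892.DP

open Pool.Agent.Y63.KR Pool.Agent.Y63.AWC

variable {G : Type} [Group G]

lemma central_conj {Z : Subgroup G} (hZ : Z ≤ Subgroup.center G) {z : G} (hz : z ∈ Z) (g : G) :
    g * z * g⁻¹ = z := by
  have h1 := Subgroup.mem_center_iff.mp (hZ hz) g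
  rw [h1]
  group

lemma conjSub_central {Z : Subgroup G} (hZ : Z ≤ Subgroup.center G) (g : G) : conjSub g Z = Z := by
  rw [conjSub_eq_iff, Subgroup.mem_normalizer_iff]
  intro x
  constructor
  · intro h
    rwa [central_conj hZ h]
  · intro h
    have h1 := central_conj hZ h g⁻¹
    have h2 : g⁻¹ * (g * x * g⁻¹) * g⁻¹⁻¹ = x := by group
    rw [h2] at h1
    rwa [h1]

lemma le_stab {Z : Subgroup G} (hZ : Z ≤ Subgroup.center G) (σ : Set (Subgroup G)) :
    Z ≤ chainStabilizer σ := by
  intro z hz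
  rw [mem_chainStabilizer]
  intro P _
  rw [conjSub_eq_iff, Subgroup.mem_normalizer_iff]
  intro x
  have h1 := Subgroup.mem_center_iff.mp (hZ hz) x
  have h2 : z * x * z⁻¹ = x := by rw [← h1]; group
  rw [h2]

lemma conj_above {p : ℕ} {Z₀ : Subgroup G} (hZ : Z₀ ≤ Subgroup.center G) (n : G) {P : Subgroup G}
    (hP : P ∈ above p Z₀) : conjSub n P ∈ above p Z₀ := by
  refine ⟨hP.1.map _, ?_⟩
  refine lt_of_le_of_ne ?_ ?_
  · have := conjSub_le (g := n) hP.2.le
    rwa [conjSub_central hZ] at this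
  · intro h
    apply hP.2.ne
    apply conjSub_injective n
    rw [conjSub_central hZ, ← h]

theorem main_proj (hgen : S_GEN) (hpc : S_PC) (p : ℕ) [Finite G] (Z Z₀ : Subgroup G)
    (lam : Z →* ℂˣ) (hZ : Z ≤ Subgroup.center G) (h0 : Z₀ ≤ Z) :
    (Nat.card Z : ℂ) * (Nat.card G : ℂ) * (projSum p Z₀ lam : ℂ) =
      ∑ᶠ a : Z, (lam a : ℂ) * (cc p Z₀ (a : G) : ℂ) := by
  have : Fintype G := Fintype.ofFinite G
  have : Fintype Z := Fintype.ofFinite Z
  let T : Type := {t : Z × G × G // t.2.1 * t.2.2 = (t.1 : G) * (t.2.2 * t.2.1)}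
  have : Fintype T := Fintype.ofFinite T
  have hnum : ∀ H : Subgroup G, Z ≤ H → (Nat.card Z : ℂ) * (Nat.card H : ℂ) * (numOver lam H : ℂ) =
      ∑ t : T, if ({t.1.2.1, t.1.2.2} : Set G) ⊆ (H : Set G) then (lam t.1.1 : ℂ) else 0 := by
    intro H hH
    have h1 := hpc G Z lam H hZ hH
    rw [mul_comm (Nat.card Z : ℂ), h1, finsum_eq_sum_of_fintype]
    rw [← Finset.sum_filter]
    have h2 : ∀ a : Z, (lam a : ℂ) *
        (Nat.card {q : G × G // q.1 ∈ H ∧ q.2 ∈ H ∧ q.1 * q.2 = (a : G) * (q.2 * q.1)} : ℂ) =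
        ∑ t ∈ (Finset.univ.filter fun t : T => ({t.1.2.1, t.1.2.2} : Set G) ⊆ (H : Set G)).filter
          (fun t => t.1.1 = a), (lam t.1.1 : ℂ) := by
      intro a
      have h3 : ∑ t ∈ (Finset.univ.filter fun t : T => ({t.1.2.1, t.1.2.2} : Set G) ⊆
          (H : Set G)).filter (fun t => t.1.1 = a), (lam t.1.1 : ℂ) =
          ∑ t ∈ (Finset.univ.filter fun t : T => ({t.1.2.1, t.1.2.2} : Set G) ⊆
          (H : Set G)).filter (fun t => t.1.1 = a), (lam a : ℂ) :=
        Finset.sum_congr rfl fun t ht => by rw [(Finset.mem_filter.mp ht).2]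
      rw [h3, Finset.sum_const, nsmul_eq_mul, mul_comm]
      congr 1
      norm_cast
      rw [Finset.filter_filter, Nat.card_eq_fintype_card, ← Fintype.card_subtype]
      refine Fintype.card_congr ?_
      exact
        { toFun := fun q => ⟨⟨(a, q.1.1, q.1.2), q.2.2.2⟩, by
            refine ⟨?_, rfl⟩
            rintro x (rfl | rfl)
            · exact q.2.1
            · exact q.2.2.1⟩
          invFun := fun t => ⟨(t.1.1.2.1, t.1.1.2.2), t.2.1 (by simp), t.2.1 (by simp), by
            have := t.1.2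
            rw [t.2.2] at this
            exact this⟩
          left_inv := fun q => rfl
          right_inv := by
            rintro ⟨⟨⟨b, x, y⟩, ht⟩, h4, h5⟩
            simp only at h5
            subst h5
            rfl }
    rw [Finset.sum_congr rfl fun a _ => h2 a]
    exact Finset.sum_fiberwise _ (fun t : T => t.1.1) fun t => (lam t.1.1 : ℂ)
  have key := hgen G (⊤ : Subgroup G) (above p Z₀) (fun σ => (numOver lam (chainStabilizer σ) : ℤ)) T
    (fun t => {t.1.2.1, t.1.2.2}) (fun t => (lam t.1.1 : ℂ)) (Nat.card Z : ℂ)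
    (fun n _ P hP => conj_above (h0.trans hZ) n hP) ?_ ?_
  · rw [Subgroup.card_top] at key
    unfold projSum
    rw [key, finsum_eq_sum_of_fintype]
    have h2 : ∀ a : Z, (lam a : ℂ) * (cc p Z₀ (a : G) : ℂ) = ∑ t ∈ Finset.univ.filter
        (fun t : T => t.1.1 = a), (lam t.1.1 : ℂ) * (w (fx (above p Z₀) {t.1.2.1, t.1.2.2}) : ℂ) := by
      intro a
      unfold cc
      rw [finsum_eq_sum_of_fintype]
      push_cast
      rw [Finset.mul_sum]
      refine Finset.sum_bij (fun q _ => ⟨(a, q.1.1, q.1.2), q.2⟩) ?_ ?_ ?_ ?_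
      · intro q _
        simp
      · intro q _ q' _ h
        have h1 := congrArg (fun t : T => t.1) h
        simp only [Prod.mk.injEq, true_and] at h1
        exact Subtype.ext (Prod.ext h1.1 h1.2)
      · rintro ⟨⟨b, x, y⟩, ht⟩ h
        have h5 := (Finset.mem_filter.mp h).2
        simp only at h5
        subst h5
        exact ⟨⟨(x, y), ht⟩, Finset.mem_univ _, rfl⟩
      · intro q _
        rfl
    rw [Finset.sum_congr rfl fun a _ => h2 a]
    exact (Finset.sum_fiberwise _ (fun t : T => t.1.1) fun t =>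
      (lam t.1.1 : ℂ) * (w (fx (above p Z₀) {t.1.2.1, t.1.2.2}) : ℂ)).symm
  · -- invariance
    intro n _ σ
    have h1 := hnum _ (le_stab hZ (conjSub n '' σ.1))
    have h2 := hnum _ (le_stab hZ σ.1)
    have hcard : Nat.card (chainStabilizer (conjSub n '' σ.1)) = Nat.card (chainStabilizer σ.1) := by
      rw [chainStabilizer_conj]
      exact Nat.card_congr (Subgroup.equivMapOfInjective _ _ (MulAut.conj n).injective).toEquiv.symm
    have h3 : (∑ t : T, if ({t.1.2.1, t.1.2.2} : Set G) ⊆ (chainStabilizer (conjSub n '' σ.1) : Set G)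
        then (lam t.1.1 : ℂ) else 0) = ∑ t : T, if ({t.1.2.1, t.1.2.2} : Set G) ⊆
          (chainStabilizer σ.1 : Set G) then (lam t.1.1 : ℂ) else 0 := by
      let e : T ≃ T :=
        { toFun := fun t => ⟨(t.1.1, n⁻¹ * t.1.2.1 * n, n⁻¹ * t.1.2.2 * n), by
            have h4 := t.2
            have h5 := central_conj hZ t.1.1.2 n⁻¹
            calc n⁻¹ * t.1.2.1 * n * (n⁻¹ * t.1.2.2 * n) = n⁻¹ * (t.1.2.1 * t.1.2.2) * n := by group
              _ = n⁻¹ * ((t.1.1 : G) * (t.1.2.2 * t.1.2.1)) * n := by rw [h4]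
              _ = (n⁻¹ * (t.1.1 : G) * n⁻¹⁻¹) * (n⁻¹ * (t.1.2.2 * t.1.2.1) * n) := by group
              _ = (t.1.1 : G) * (n⁻¹ * t.1.2.2 * n * (n⁻¹ * t.1.2.1 * n)) := by rw [h5]; group⟩
          invFun := fun t => ⟨(t.1.1, n * t.1.2.1 * n⁻¹, n * t.1.2.2 * n⁻¹), by
            have h4 := t.2
            have h5 := central_conj hZ t.1.1.2 n
            calc n * t.1.2.1 * n⁻¹ * (n * t.1.2.2 * n⁻¹) = n * (t.1.2.1 * t.1.2.2) * n⁻¹ := by group
              _ = n * ((t.1.1 : G) * (t.1.2.2 * t.1.2.1)) * n⁻¹ := by rw [h4]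
              _ = (n * (t.1.1 : G) * n⁻¹) * (n * (t.1.2.2 * t.1.2.1) * n⁻¹) := by group
              _ = (t.1.1 : G) * (n * t.1.2.2 * n⁻¹ * (n * t.1.2.1 * n⁻¹)) := by rw [h5]; group⟩
          left_inv := fun t => by
            apply Subtype.ext
            apply Prod.ext
            · rfl
            · apply Prod.ext
              · change n * (n⁻¹ * t.1.2.1 * n) * n⁻¹ = _
                group
              · change n * (n⁻¹ * t.1.2.2 * n) * n⁻¹ = _
                group
          right_inv := fun t => by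
            apply Subtype.ext
            apply Prod.ext
            · rfl
            · apply Prod.ext
              · change n⁻¹ * (n * t.1.2.1 * n⁻¹) * n = _
                group
              · change n⁻¹ * (n * t.1.2.2 * n⁻¹) * n = _
                group }
      refine Fintype.sum_equiv e _ _ fun t => ?_
      have h6 : (({t.1.2.1, t.1.2.2} : Set G) ⊆ (chainStabilizer (conjSub n '' σ.1) : Set G)) ↔
          (({(e t).1.2.1, (e t).1.2.2} : Set G) ⊆ (chainStabilizer σ.1 : Set G)) := by
        rw [chainStabilizer_conj]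
        simp only [Set.insert_subset_iff, Set.singleton_subset_iff, SetLike.mem_coe, mem_conjSub]
        rfl
      have h7 : (e t).1.1 = t.1.1 := rfl
      rw [h7]
      exact if_congr h6 rfl rfl
    rw [h3, ← h2, hcard] at h1
    have h8 : (Nat.card Z : ℂ) * (Nat.card (chainStabilizer σ.1) : ℂ) ≠ 0 :=
      mul_ne_zero (by exact_mod_cast Nat.card_pos.ne') (by exact_mod_cast Nat.card_pos.ne')
    have h9 := mul_left_cancel₀ h8 h1
    norm_cast at h9 ⊢
  · intro σ
    rw [top_inf_eq]
    have := hnum _ (le_stab hZ σ.1)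
    push_cast
    exact this

end Pool.Agent.Y892.DP
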