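import Pool.Agent.Y892.DP.Stm2
import Pool.Agent.Y892.DP.A1

/-!
# The formulas for the alternating sums of invariant characters
-/

open scoped Classical BigOperators

set_option linter.unusedSectionVars false
set_option linter.style.haveILetI false

noncomputable section

namespace Pool.Agent.Y892.DP

open Pool.Agent.Y63.KR Pool.Agent.Y63.AWC

variable {G : Type} [Group G]

lemma pairs2_eq [Finite G] (p : ℕ) (N C : Subgroup G) (b : G) :
    (pairs2 p (N ⊓ C) {v | b⁻¹ * v ∈ N ∧ v ∈ C} : ℂ) = pairSum N C b (wt2 p (N ⊓ C)) 0 1 := by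
  have : Fintype G := Fintype.ofFinite G
  unfold pairs2 pairSum
  rw [finsum_eq_sum_of_fintype, finsum_eq_sum_of_fintype]
  push_cast
  symm
  have h1 : ∀ q : {q : G × G // (b ^ 0)⁻¹ * q.1 ∈ N ∧ (b ^ 1)⁻¹ * q.2 ∈ N ∧ q.1 ∈ C ∧ q.2 ∈ C},
      q ∉ Finset.univ.filter (fun q : {q : G × G // (b ^ 0)⁻¹ * q.1 ∈ N ∧ (b ^ 1)⁻¹ * q.2 ∈ N ∧
        q.1 ∈ C ∧ q.2 ∈ C} => q.1.1 * q.1.2 = q.1.2 * q.1.1) →
      wt2 p (N ⊓ C) q.1.1 q.1.2 = 0 := by
    intro q hq
    rw [Finset.mem_filter, not_and] at hq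
    exact if_neg (hq (Finset.mem_univ _))
  rw [← Finset.sum_subset (Finset.subset_univ _) fun q _ hq => h1 q hq]
  refine Finset.sum_bij (fun q hq => ⟨(q.1.1, q.1.2), ⟨?_, q.2.2.2.1⟩, ⟨?_, q.2.2.2.2⟩,
    (Finset.mem_filter.mp hq).2⟩) ?_ ?_ ?_ ?_
  · have := q.2.1
    simpa using this
  · have := q.2.2.1
    simpa using this
  · intro q _
    exact Finset.mem_univ _
  · intro q _ q' _ h
    have h2 := congrArg Subtype.val h
    exact Subtype.ext h2
  · rintro ⟨⟨x, y⟩, hx, hy, hxy⟩ _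
    refine ⟨⟨(x, y), ?_, ?_, hx.2, hy.2⟩, ?_, rfl⟩
    · simpa using hx.1
    · simpa using hy.1
    · rw [Finset.mem_filter]
      exact ⟨Finset.mem_univ _, hxy⟩
  · intro q hq
    exact if_pos (Finset.mem_filter.mp hq).2

lemma fx_congr {X : Set (Subgroup G)} {S S' : Set G}
    (h : ∀ P : Subgroup G, (∀ x ∈ S, conjSub x P = P) ↔ ∀ x ∈ S', conjSub x P = P) :
    fx X S = fx X S' := by
  ext P
  unfold fx
  constructor
  · rintro ⟨h1, h2⟩
    exact ⟨h1, (h P).mp h2⟩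
  · rintro ⟨h1, h2⟩
    exact ⟨h1, (h P).mpr h2⟩

lemma wt2_mul (p : ℕ) (M : Subgroup G) (x y : G) : wt2 p M x (x * y) = wt2 p M x y := by
  unfold wt2
  have h1 : x * (x * y) = x * y * x ↔ x * y = y * x := by
    constructor
    · intro h
      have h2 : x * (x * y) = x * (y * x) := by rw [h, mul_assoc]
      exact mul_left_cancel h2
    · intro h
      rw [h, ← mul_assoc, h]
  have h2 : fx (inside p M) {x, x * y} = fx (inside p M) {x, y} := by
    apply fx_congr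
    intro P
    simp only [Set.mem_insert_iff, Set.mem_singleton_iff, forall_eq_or_imp, forall_eq]
    constructor
    · rintro ⟨h3, h4⟩
      refine ⟨h3, ?_⟩
      rw [conjSub_mul] at h4
      apply conjSub_injective x
      rw [h4, h3]
    · rintro ⟨h3, h4⟩
      refine ⟨h3, ?_⟩
      rw [conjSub_mul, h4, h3]
  rw [h2]
  exact if_congr h1 rfl rfl

lemma wt2_swap (p : ℕ) (M : Subgroup G) (x y : G) : wt2 p M y x⁻¹ = wt2 p M x y := by
  unfold wt2
  have h1 : y * x⁻¹ = x⁻¹ * y ↔ x * y = y * x := by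
    constructor
    · intro h
      have : x * (y * x⁻¹) * x = x * (x⁻¹ * y) * x := by rw [h]
      calc x * y = x * (y * x⁻¹) * x := by group
        _ = x * (x⁻¹ * y) * x := this
        _ = y * x := by group
    · intro h
      calc y * x⁻¹ = x⁻¹ * (x * y) * x⁻¹ := by group
        _ = x⁻¹ * (y * x) * x⁻¹ := by rw [h]
        _ = x⁻¹ * y := by group
  have h2 : fx (inside p M) {y, x⁻¹} = fx (inside p M) {x, y} := by
    apply fx_congr
    intro P
    simp only [Set.mem_insert_iff, Set.mem_singleton_iff, forall_eq_or_imp, forall_eq]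
    constructor
    · rintro ⟨h3, h4⟩
      refine ⟨?_, h3⟩
      rw [← h4, conjSub_conjSub_inv, h4]
    · rintro ⟨h3, h4⟩
      refine ⟨h4, ?_⟩
      conv_lhs => rw [← h3]
      rw [conjSub_inv_conjSub]
  rw [h2]
  exact if_congr h1 rfl rfl

/-- the core: pairs and Knörr–Robinson sums -/
theorem core (hsl : S_SL) (hjor : S_JOR) (hkrn : S_KRN) (p : ℕ) [Fact p.Prime] [Finite G]
    (N C : Subgroup G) (b : G) (m : ℕ) (hb : conjSub b N = N) (hm : 0 < m)
    (hk : ∀ k : ℕ, b ^ k ∈ N ↔ m ∣ k) (hpm : ¬ p ∣ m) :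
    (jordan2 m : ℂ) * pairSum N C b (wt2 p (N ⊓ C)) 0 1 =
      ∑ d ∈ m.divisors, (ArithmeticFunction.moebius d : ℂ) *
        ((Nat.card ↥(C ⊓ (N ⊔ Subgroup.zpowers (b ^ d))) : ℂ) *
          (krSum p ↥(C ⊓ (N ⊔ Subgroup.zpowers (b ^ d))) : ℂ)) := by
  have h1 := hjor m (fun k => pairSum N C b (wt2 p (N ⊓ C)) 0 k) hm
  rw [h1]
  refine Finset.sum_congr rfl fun d hd => ?_
  congr 1
  rw [hkrn p G N C b m d hb hm hk hpm (Nat.dvd_of_mem_divisors hd)]
  refine Finset.sum_congr rfl fun i _ => Finset.sum_congr rfl fun j _ => ?_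
  exact (hsl G N C b m (wt2 p (N ⊓ C)) hb hm hk (fun x y _ _ => wt2_mul p _ x y)
    (fun x y _ _ => wt2_swap p _ x y) (d * i) (d * j)).symm

theorem formula_inv (hpair : S_PAIR) (hred : S_RED) (hsl : S_SL) (hjor : S_JOR) (hkrn : S_KRN)
    (p : ℕ) [Fact p.Prime] [Finite G] (N : Subgroup G) (a b : G) (m : ℕ) (hab : a * b = b * a)
    (ha : ∃ k : ℕ, a ^ p ^ k = 1) (hb : ¬ p ∣ orderOf b) (hN : conjSub (a * b) N = N)
    (hbN : conjSub b N = N) (hm : 0 < m) (hk : ∀ k : ℕ, b ^ k ∈ N ↔ m ∣ k) :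
    (jordan2 m : ℤ) * ((Nat.card N : ℤ) * invSum p N (a * b)) =
      ∑ᶠ u : {u : G // a⁻¹ * u ∈ N ∧ (∃ k : ℕ, u ^ p ^ k = 1) ∧ Subgroup.zpowers u ⊓ N = ⊥},
        ∑ d ∈ m.divisors, ArithmeticFunction.moebius d *
          ((Nat.card ↥(Subgroup.centralizer {u.1} ⊓ (N ⊔ Subgroup.zpowers (b ^ d))) : ℤ) *
            krSum p ↥(Subgroup.centralizer {u.1} ⊓ (N ⊔ Subgroup.zpowers (b ^ d)))) := by
  have hpm : ¬ p ∣ m := by
    intro h
    have h1 : b ^ orderOf b ∈ N := by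
      rw [pow_orderOf_eq_one]
      exact N.one_mem
    exact hb (h.trans ((hk _).mp h1))
  rw [hpair p G N (a * b) hN, hred p G N a b hab ha hb hN]
  have : Fintype G := Fintype.ofFinite G
  rw [finsum_eq_sum_of_fintype, finsum_eq_sum_of_fintype, Finset.mul_sum]
  refine Finset.sum_congr rfl fun u _ => ?_
  have h1 := core hsl hjor hkrn p N (Subgroup.centralizer {u.1}) b m hbN hm hk hpm
  rw [← pairs2_eq] at h1
  have h2 : {v : G | b⁻¹ * v ∈ N ∧ v * u.1 = u.1 * v} =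
      {v : G | b⁻¹ * v ∈ N ∧ v ∈ Subgroup.centralizer {u.1}} := by
    ext v
    simp only [Set.mem_ofPred_eq, Subgroup.mem_centralizer_singleton_iff]
  rw [h2]
  have h3 : (((jordan2 m : ℤ) * pairs2 p (N ⊓ Subgroup.centralizer {u.1})
      {v | b⁻¹ * v ∈ N ∧ v ∈ Subgroup.centralizer {u.1}} : ℤ) : ℂ) =
      ((∑ d ∈ m.divisors, ArithmeticFunction.moebius d *
          ((Nat.card ↥(Subgroup.centralizer {u.1} ⊓ (N ⊔ Subgroup.zpowers (b ^ d))) : ℤ) *
            krSum p ↥(Subgroup.centralizer {u.1} ⊓ (N ⊔ Subgroup.zpowers (b ^ d)))) : ℤ) : ℂ) := by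
    push_cast
    exact h1
  exact_mod_cast h3

end Pool.Agent.Y892.DP
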