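import Pool.Agent.Y892.DP.Stm2

/-!
# Statements of the blocks of the third part of project DP: the count of Dade, Glauberman and Nagao
-/

open scoped Classical BigOperators

noncomputable section

namespace Pool.Agent.Y892.DP

open Pool.Agent.Y63.KR Pool.Agent.Y63.AWC

/-- DGC: invariant characters of defect zero for a `p`-automorphism -/
def S_DGC : Prop := ∀ (p : ℕ) [Fact p.Prime] (G : Type) [Group G] [Finite G] (N : Subgroup G)
  (a : G), (∃ k : ℕ, a ^ p ^ k = 1) → conjSub a N = N →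
  Nat.card N * invZero p N a =
    ∑ᶠ u : {u : G // a⁻¹ * u ∈ N ∧ (∃ k : ℕ, u ^ p ^ k = 1) ∧ Subgroup.zpowers u ⊓ N = ⊥},
      Nat.card ↥(Subgroup.centralizer {u.1} ⊓ N) *
        numDefectZero p ↥(Subgroup.centralizer {u.1} ⊓ N)

/-- DZE: the idempotent of an extension of index prime to `p` -/
def S_DZE : Prop := ∀ (p : ℕ) [Fact p.Prime] (G : Type) [Group G] [Finite G] (N : Subgroup G)
  (b : G) (m d : ℕ), conjSub b N = N → 0 < m → (∀ k : ℕ, b ^ k ∈ N ↔ m ∣ k) → ¬ p ∣ m → d ∣ m →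
  ∀ g : G, dz p (N ⊔ Subgroup.zpowers (b ^ d)) g = dz p N g

/-- ZND: invariant characters of defect zero of an extension of index prime to `p` -/
def S_ZND : Prop := ∀ (p : ℕ) [Fact p.Prime] (G : Type) [Group G] [Finite G] (N : Subgroup G)
  (a b : G) (m d : ℕ), a * b = b * a → (∃ k : ℕ, a ^ p ^ k = 1) → ¬ p ∣ orderOf b →
  conjSub a N = N → conjSub b N = N → 0 < m → (∀ k : ℕ, b ^ k ∈ N ↔ m ∣ k) → d ∣ m →
  (Nat.card ↥(N ⊔ Subgroup.zpowers (b ^ d)) : ℂ) *
      (invZero p (N ⊔ Subgroup.zpowers (b ^ d)) a : ℂ) =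
    ∑ i ∈ Finset.range (m / d), ∑ j ∈ Finset.range (m / d),
      (Nat.card N : ℂ) *
        (invZero p N ((a * b) ^ (Nat.gcd (Nat.gcd (d * i) (d * j)) m)) : ℂ)

end Pool.Agent.Y892.DP
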