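import Pool.Agent.Y892.DP.C2
import Pool.Agent.Y892.DP.Stm3
import Pool.Agent.Y576.DP.Red
import Pool.Agent.Y532.DP.Zn

/-!
# The formula for the invariant characters of defect zero, and the equivalence
-/

open scoped Classical BigOperators

set_option linter.unusedSectionVars false
set_option linter.style.haveILetI false

noncomputable section

namespace Pool.Agent.Y892.DP

open Pool.Agent.Y63.KR Pool.Agent.Y63.AWC Pool.Agent.Y576.DP Pool.Agent.Y532.DP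

variable {G : Type} [Group G]

/-- `p`-elements of the extension lie in `N` -/
lemma mem_of_ext [Finite G] {p : ℕ} [hp : Fact p.Prime] {N : Subgroup G} {b : G} {m d : ℕ}
    (hN : conjSub b N = N) (hm : 0 < m) (hk : ∀ k : ℕ, b ^ k ∈ N ↔ m ∣ k) (hpm : ¬ p ∣ m)
    (hd : d ∣ m) {x : G} (hx : x ∈ N ⊔ Subgroup.zpowers (b ^ d)) {k : ℕ} (hxk : x ^ p ^ k ∈ N) :
    x ∈ N := by
  obtain ⟨i, -, hi⟩ := (mem_ext N b m d hN hm hk hd x).1 hx
  have h1 := coset_pow (nm_pow hN (d * i)) hi (p ^ k)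
  have h2 : (b ^ (d * i)) ^ p ^ k ∈ N := by
    have h3 := N.mul_mem hxk (N.inv_mem h1)
    have h4 : x ^ p ^ k * (((b ^ (d * i)) ^ p ^ k)⁻¹ * x ^ p ^ k)⁻¹ = (b ^ (d * i)) ^ p ^ k := by
      group
    rwa [h4] at h3
  rw [← pow_mul, hk] at h2
  have h3 : Nat.Coprime m (p ^ k) :=
    (Nat.Coprime.pow_left k ((Nat.Prime.coprime_iff_not_dvd hp.out).mpr hpm)).symm
  have h4 : b ^ (d * i) ∈ N := (hk _).2 (h3.dvd_of_dvd_mul_right h2)
  have h5 : x = b ^ (d * i) * ((b ^ (d * i))⁻¹ * x) := by group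
  rw [h5]
  exact N.mul_mem h4 hi

lemma conj_ext {N : Subgroup G} {a b : G} (hab : a * b = b * a) (ha : conjSub a N = N) (d : ℕ) :
    conjSub a (N ⊔ Subgroup.zpowers (b ^ d)) = N ⊔ Subgroup.zpowers (b ^ d) := by
  refine nm_sup ha (nm_zpowers ?_)
  exact (Commute.pow_right (show Commute a b from hab) d).eq

lemma index_sets [Finite G] {p : ℕ} [hp : Fact p.Prime] {N : Subgroup G} {a b : G} {m d : ℕ}
    (hab : a * b = b * a) (ha : ∃ k : ℕ, a ^ p ^ k = 1) (haN : conjSub a N = N)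
    (hN : conjSub b N = N) (hm : 0 < m) (hk : ∀ k : ℕ, b ^ k ∈ N ↔ m ∣ k) (hpm : ¬ p ∣ m)
    (hd : d ∣ m) (u : G) :
    (a⁻¹ * u ∈ N ⊔ Subgroup.zpowers (b ^ d) ∧ (∃ k : ℕ, u ^ p ^ k = 1) ∧
      Subgroup.zpowers u ⊓ (N ⊔ Subgroup.zpowers (b ^ d)) = ⊥) ↔
    (a⁻¹ * u ∈ N ∧ (∃ k : ℕ, u ^ p ^ k = 1) ∧ Subgroup.zpowers u ⊓ N = ⊥) := by
  constructor
  · rintro ⟨h1, ⟨k, h2⟩, h3⟩
    obtain ⟨l, hl⟩ := ha
    refine ⟨?_, ⟨k, h2⟩, ?_⟩
    · obtain ⟨i, -, hi⟩ := (mem_ext N b m d hN hm hk hd _).1 h1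
      have hc : conjSub (a * b ^ (d * i)) N = N := by
        rw [conjSub_mul, nm_pow hN, haN]
      have h4 : (a * b ^ (d * i))⁻¹ * u ∈ N := by
        have : (a * b ^ (d * i))⁻¹ * u = (b ^ (d * i))⁻¹ * (a⁻¹ * u) := by group
        rwa [this]
      have h5 := coset_pow hc h4 (p ^ (k + l))
      have h6 : u ^ p ^ (k + l) = 1 := by
        rw [pow_add, pow_mul, h2, one_pow]
      have h7 : a ^ p ^ (k + l) = 1 := by
        rw [pow_add, mul_comm, pow_mul, hl, one_pow]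
      have h8 : (a * b ^ (d * i)) ^ p ^ (k + l) = (b ^ (d * i)) ^ p ^ (k + l) := by
        rw [(Commute.pow_right (show Commute a b from hab) (d * i)).mul_pow, h7, one_mul]
      rw [h6, mul_one, h8] at h5
      have h9 := N.inv_mem h5
      rw [inv_inv, ← pow_mul, hk] at h9
      have h10 : Nat.Coprime m (p ^ (k + l)) :=
        (Nat.Coprime.pow_left _ ((Nat.Prime.coprime_iff_not_dvd hp.out).mpr hpm)).symm
      have h11 : b ^ (d * i) ∈ N := (hk _).2 (h10.dvd_of_dvd_mul_right h9)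
      have h12 : a⁻¹ * u = b ^ (d * i) * ((b ^ (d * i))⁻¹ * (a⁻¹ * u)) := by group
      rw [h12]
      exact N.mul_mem h11 hi
    · rw [eq_bot_iff] at h3 ⊢
      exact (inf_le_inf_left _ le_sup_left).trans h3
  · rintro ⟨h1, ⟨k, h2⟩, h3⟩
    refine ⟨(le_sup_left : N ≤ _) h1, ⟨k, h2⟩, ?_⟩
    rw [eq_bot_iff] at h3 ⊢
    refine le_trans ?_ h3
    rintro x ⟨hx1, hx2⟩
    refine ⟨hx1, ?_⟩
    obtain ⟨i, hi⟩ := hx1
    refine mem_of_ext (k := k) hN hm hk hpm hd hx2 ?_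
    have h4 : x ^ p ^ k = 1 := by
      rw [← hi]
      change (u ^ i) ^ p ^ k = 1
      rw [← zpow_natCast, ← zpow_mul, mul_comm, zpow_mul, zpow_natCast, h2, one_zpow]
    rw [h4]
    exact N.one_mem

theorem formula_zero_all (hznd : S_ZND) (hdgc : S_DGC) (hjor : S_JOR)
    (p : ℕ) [Fact p.Prime] [Finite G] (N : Subgroup G) (a b : G) (m : ℕ) (hab : a * b = b * a)
    (ha : ∃ k : ℕ, a ^ p ^ k = 1) (hb : ¬ p ∣ orderOf b) (haN : conjSub a N = N)
    (hbN : conjSub b N = N) (hm : 0 < m) (hk : ∀ k : ℕ, b ^ k ∈ N ↔ m ∣ k) :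
    (jordan2 m : ℤ) * ((Nat.card N : ℤ) * (invZero p N (a * b) : ℤ)) =
      ∑ᶠ u : {u : G // a⁻¹ * u ∈ N ∧ (∃ k : ℕ, u ^ p ^ k = 1) ∧ Subgroup.zpowers u ⊓ N = ⊥},
        ∑ d ∈ m.divisors, ArithmeticFunction.moebius d *
          ((Nat.card ↥(Subgroup.centralizer {u.1} ⊓ (N ⊔ Subgroup.zpowers (b ^ d))) : ℤ) *
            (numDefectZero p
              ↥(Subgroup.centralizer {u.1} ⊓ (N ⊔ Subgroup.zpowers (b ^ d))) : ℤ)) := by
  have : Fintype G := Fintype.ofFinite G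
  have hpm : ¬ p ∣ m := by
    intro h
    have h1 : b ^ orderOf b ∈ N := by
      rw [pow_orderOf_eq_one]
      exact N.one_mem
    exact hb (h.trans ((hk _).mp h1))
  have h1 := moebius_of hjor m hm (Nat.card N : ℂ) (fun k => (invZero p N ((a * b) ^ k) : ℤ))
    (fun d => (Nat.card ↥(N ⊔ Subgroup.zpowers (b ^ d)) : ℂ) *
      (invZero p (N ⊔ Subgroup.zpowers (b ^ d)) a : ℂ))
    (fun d hd => by
      rw [hznd p G N a b m d hab ha hb haN hbN hm hk hd]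
      simp only [Int.cast_natCast])
  have h2 : (jordan2 m : ℤ) * ((Nat.card N : ℤ) * (invZero p N (a * b) : ℤ)) =
      ∑ d ∈ m.divisors, ArithmeticFunction.moebius d *
        ((Nat.card ↥(N ⊔ Subgroup.zpowers (b ^ d)) : ℤ) *
          (invZero p (N ⊔ Subgroup.zpowers (b ^ d)) a : ℤ)) := by
    simp only [pow_one] at h1
    exact_mod_cast h1
  rw [h2, finsum_eq_sum_of_fintype, Finset.sum_comm]
  refine Finset.sum_congr rfl fun d hd => ?_
  have hdm := Nat.dvd_of_mem_divisors hd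
  rw [← Finset.mul_sum]
  congr 1
  have h3 := hdgc p G (N ⊔ Subgroup.zpowers (b ^ d)) a ha (conj_ext hab haN d)
  have h4 : (∑ᶠ u : {u : G // a⁻¹ * u ∈ N ⊔ Subgroup.zpowers (b ^ d) ∧ (∃ k : ℕ, u ^ p ^ k = 1) ∧
      Subgroup.zpowers u ⊓ (N ⊔ Subgroup.zpowers (b ^ d)) = ⊥},
      Nat.card ↥(Subgroup.centralizer {u.1} ⊓ (N ⊔ Subgroup.zpowers (b ^ d))) *
        numDefectZero p ↥(Subgroup.centralizer {u.1} ⊓ (N ⊔ Subgroup.zpowers (b ^ d)))) =
      ∑ u : {u : G // a⁻¹ * u ∈ N ∧ (∃ k : ℕ, u ^ p ^ k = 1) ∧ Subgroup.zpowers u ⊓ N = ⊥},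
      Nat.card ↥(Subgroup.centralizer {u.1} ⊓ (N ⊔ Subgroup.zpowers (b ^ d))) *
        numDefectZero p ↥(Subgroup.centralizer {u.1} ⊓ (N ⊔ Subgroup.zpowers (b ^ d))) := by
    rw [← finsum_eq_sum_of_fintype]
    exact finsum_eq_of_bijective
      (Equiv.subtypeEquivRight fun u => index_sets hab ha haN hbN hm hk hpm hdm u)
      (Equiv.bijective _) fun u => rfl
  rw [h4] at h3
  exact_mod_cast h3

lemma order_mod [Finite G] (N : Subgroup G) (b : G) :
    ∃ m : ℕ, 0 < m ∧ ∀ k : ℕ, b ^ k ∈ N ↔ m ∣ k := by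
  have hex : ∃ m : ℕ, 0 < m ∧ b ^ m ∈ N :=
    ⟨orderOf b, orderOf_pos b, by rw [pow_orderOf_eq_one]; exact N.one_mem⟩
  refine ⟨Nat.find hex, (Nat.find_spec hex).1, fun k => ⟨fun h => ?_, ?_⟩⟩
  · have h1 : b ^ (k % Nat.find hex) ∈ N := by
      have h2 : b ^ k = (b ^ Nat.find hex) ^ (k / Nat.find hex) * b ^ (k % Nat.find hex) := by
        rw [← pow_mul, ← pow_add, Nat.div_add_mod]
      have h3 : b ^ (k % Nat.find hex) = ((b ^ Nat.find hex) ^ (k / Nat.find hex))⁻¹ * b ^ k := by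
        rw [h2]; group
      rw [h3]
      exact N.mul_mem (N.inv_mem (N.pow_mem (Nat.find_spec hex).2 _)) h
    by_contra h2
    have h3 : 0 < k % Nat.find hex := Nat.pos_of_ne_zero fun h4 => h2 (Nat.dvd_of_mod_eq_zero h4)
    exact Nat.find_min hex (Nat.mod_lt k (Nat.find_spec hex).1) ⟨h3, h1⟩
  · rintro ⟨c, rfl⟩
    rw [pow_mul]
    exact N.pow_mem (Nat.find_spec hex).2 c

lemma decompose [Finite G] (p : ℕ) [hp : Fact p.Prime] (e : G) : ∃ a b : G, a * b = e ∧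
    a * b = b * a ∧ (∃ k : ℕ, a ^ p ^ k = 1) ∧ ¬ p ∣ orderOf b ∧
    (∃ i : ℕ, a = e ^ i) ∧ ∃ j : ℕ, b = e ^ j := by
  obtain ⟨t, t', T1, T2, T3, T4, T5⟩ := exps p G
  refine ⟨e ^ t, e ^ t', T1 e, ?_, T3 e, ?_, ⟨t, rfl⟩, ⟨t', rfl⟩⟩
  · rw [← pow_add, ← pow_add, add_comm]
  · intro h
    obtain ⟨c, hc⟩ := h
    have hc0 : c ≠ 0 := by
      rintro rfl
      rw [mul_zero] at hc
      exact (orderOf_pos (e ^ t')).ne' hc
    have h1 : orderOf ((e ^ t') ^ c) = p := by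
      rw [orderOf_pow_of_dvd hc0 ⟨p, by rw [mul_comm]; exact hc⟩, hc,
        Nat.mul_div_cancel _ (Nat.pos_of_ne_zero hc0)]
    have h2 : ((e ^ t') ^ c) ^ t = (e ^ t') ^ c := T4 _ ⟨1, by rw [pow_one, ← h1, pow_orderOf_eq_one]⟩
    rw [← pow_mul, mul_comm c t, pow_mul, T2, one_pow] at h2
    rw [← h2, orderOf_one] at h1
    exact hp.out.one_lt.ne h1

lemma krSum_eq_inv (hpair : S_PAIR) (hkrp : S_KRP) (p : ℕ) [Fact p.Prime] [Finite G] :
    krSum p G = invSum p (⊤ : Subgroup G) 1 := by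
  have h1 := hkrp p G
  have h2 := hpair p G ⊤ 1 (by rw [conjSub_one])
  rw [Subgroup.card_top] at h2
  have h3 : pairs2 p (⊤ : Subgroup G) {y | (1 : G)⁻¹ * y ∈ (⊤ : Subgroup G)} =
      ∑ᶠ q : {q : G × G // q.1 * q.2 = q.2 * q.1}, w (fx (above p ⊥) {q.1.1, q.1.2}) := by
    have h4 : inside p (⊤ : Subgroup G) = above p ⊥ := by
      ext P
      unfold inside above
      simp only [Set.mem_ofPred_eq, le_top, and_true, bot_lt_iff_ne_bot]
    unfold pairs2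
    rw [h4]
    exact finsum_eq_of_bijective (Equiv.subtypeEquivRight fun q => by simp)
      (Equiv.bijective _) fun q => rfl
  rw [h3, ← h1] at h2
  have h5 : (Nat.card G : ℤ) ≠ 0 := by exact_mod_cast Nat.card_pos.ne'
  exact (mul_left_cancel₀ h5 h2).symm

lemma invZero_top (p : ℕ) [Finite G] : invZero p (⊤ : Subgroup G) 1 = numDefectZero p G := by
  unfold invZero numDefectZero
  let e : G ≃* (⊤ : Subgroup G) := Subgroup.topEquiv.symm
  refine Nat.card_congr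
    { toFun := fun ψ => ⟨fun g => ψ.1 (e g), irr_comp e ψ.2.1, ?_⟩
      invFun := fun χ => ⟨fun g => χ.1 (e.symm g), irr_comp e.symm χ.2.1, ?_, ?_⟩
      left_inv := fun ψ => Subtype.ext (funext fun g => by simp)
      right_inv := fun χ => Subtype.ext (funext fun g => by simp) }
  · obtain ⟨n, h1, h2⟩ := ψ.2.2.1
    refine ⟨n, ?_, ?_⟩
    · change ψ.1 (e 1) = _
      rw [map_one, h1]
    · rw [h2, Subgroup.card_top]
  · obtain ⟨n, h1, h2⟩ := χ.2.2
    refine ⟨n, ?_, ?_⟩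
    · change χ.1 (e.symm 1) = _
      rw [map_one, h1]
    · rw [h2, Subgroup.card_top]
  · intro g g' h
    rw [one_mul, inv_one, mul_one] at h
    rw [Subtype.ext h]

/-- the equivalence of the two conjectural equalities for all finite groups -/
theorem equiv_all (hpair : S_PAIR) (hred : S_RED) (hsl : S_SL) (hjor : S_JOR) (hkrn : S_KRN)
    (hkrp : S_KRP) (hznd : S_ZND) (hdgc : S_DGC) (p : ℕ) [hp : Fact p.Prime] :
    (∀ (G : Type) [Group G] [Finite G] (N : Subgroup G) (e : G), conjSub e N = N →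
      invSum p N e = (invZero p N e : ℤ)) ↔
    ∀ (G : Type) [Group G] [Finite G], krSum p G = (numDefectZero p G : ℤ) := by
  constructor
  · intro h G _ _
    rw [krSum_eq_inv hpair hkrp, h G ⊤ 1 (by rw [conjSub_one]), invZero_top]
  · intro h G _ _ N e he
    obtain ⟨a, b, rfl, hab, ha, hb, ⟨i, hi⟩, ⟨j, hj⟩⟩ := decompose p e
    have haN : conjSub a N = N := by rw [hi]; exact nm_pow he i
    have hbN : conjSub b N = N := by rw [hj]; exact nm_pow he j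
    obtain ⟨m, hm, hk⟩ := order_mod N b
    have h1 := formula_inv hpair hred hsl hjor hkrn p N a b m hab ha hb he hbN hm hk
    have h2 := formula_zero_all hznd hdgc hjor p N a b m hab ha hb haN hbN hm hk
    have h3 : ∀ (u : G) (d : ℕ),
        krSum p ↥(Subgroup.centralizer {u} ⊓ (N ⊔ Subgroup.zpowers (b ^ d))) =
        (numDefectZero p ↥(Subgroup.centralizer {u} ⊓ (N ⊔ Subgroup.zpowers (b ^ d))) : ℤ) :=
      fun u d => h _
    simp only [h3] at h1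
    rw [← h2] at h1
    have h6 : (jordan2 m : ℤ) ≠ 0 := by
      exact_mod_cast (jordan_pos _ hm).ne'
    have h7 : (Nat.card N : ℤ) ≠ 0 := by
      exact_mod_cast Nat.card_pos.ne'
    exact mul_left_cancel₀ h7 (mul_left_cancel₀ h6 h1)

end Pool.Agent.Y892.DP
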