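import Pool.Agent.Y892.DP.Defs4
import Pool.Agent.Y63.AWC.Ch

/-!
# Characters with a given stabiliser
-/

open scoped Classical BigOperators

set_option linter.unusedSectionVars false
set_option linter.style.haveILetI false

noncomputable section

namespace Pool.Agent.Y892.DP

open Pool.Agent.Y63.KR Pool.Agent.Y63.AWC Pool.Agent.Helper884.IC

variable {G : Type} [Group G]

/-- periodic submonoids of `ℕ` -/
lemma periodic_monoid {K : ℕ → Prop} {m : ℕ} (hm : 0 < m) (h0 : K m)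
    (hadd : ∀ i j, K i → K j → K (i + j)) (hper : ∀ k, K (k + m) ↔ K k) :
    ∃ c, c ∣ m ∧ ∀ k, K k ↔ c ∣ k := by
  have hex : ∃ c, 0 < c ∧ K c := ⟨m, hm, h0⟩
  have hK0 : K 0 := (hper 0).1 (by rwa [zero_add])
  have hmul : ∀ i j, K i → K (j * i) := by
    intro i j hi
    induction j with
    | zero => rwa [zero_mul]
    | succ j ih => rw [add_mul, one_mul]; exact hadd _ _ ih hi
  have hperm : ∀ k j, K (k + j * m) ↔ K k := by
    intro k j
    induction j with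
    | zero => simp
    | succ j ih =>
      rw [add_mul, one_mul, ← add_assoc, hper, ih]
  have key : ∀ k, K k → Nat.find hex ∣ k := by
    intro k hk
    have h1 : K (k % Nat.find hex) := by
      obtain ⟨r, hr⟩ : ∃ r, m = r + 1 := ⟨m - 1, by omega⟩
      have h2 : K (k + (k / Nat.find hex) * (r * Nat.find hex)) :=
        hadd _ _ hk (hmul _ _ (hmul _ _ (Nat.find_spec hex).2))
      have h3 : k + (k / Nat.find hex) * (r * Nat.find hex) =
          k % Nat.find hex + ((k / Nat.find hex) * Nat.find hex) * m := by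
        conv_lhs => rw [← Nat.mod_add_div k (Nat.find hex)]
        rw [hr, Nat.add_mul_div_left _ _ (Nat.find_spec hex).1,
          Nat.div_eq_of_lt (Nat.mod_lt _ (Nat.find_spec hex).1), zero_add]
        ring
      rw [h3, hperm] at h2
      exact h2
    by_contra h4
    exact Nat.find_min hex (Nat.mod_lt k (Nat.find_spec hex).1)
      ⟨Nat.pos_of_ne_zero fun h5 => h4 (Nat.dvd_of_mod_eq_zero h5), h1⟩
  refine ⟨Nat.find hex, key m h0, fun k => ⟨key k, ?_⟩⟩
  rintro ⟨j, rfl⟩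
  rw [mul_comm]
  exact hmul _ _ (Nat.find_spec hex).2

/-- partition of a finite set by the generator of a periodic submonoid -/
lemma card_partition {Ω : Type} (P : Ω → Prop) (hP : {ω | P ω}.Finite) (K : Ω → ℕ → Prop) {m : ℕ}
    (hm : 0 < m) (h0 : ∀ ω, P ω → K ω m) (hadd : ∀ ω, P ω → ∀ i j, K ω i → K ω j → K ω (i + j))
    (hper : ∀ ω, P ω → ∀ k, K ω (k + m) ↔ K ω k) (k : ℕ) :
    Nat.card {ω // P ω ∧ K ω k} =
      ∑ c ∈ m.divisors.filter (· ∣ k), Nat.card {ω // P ω ∧ ∀ l, K ω l ↔ c ∣ l} := by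
  set S : Finset Ω := hP.toFinset with hS
  have hmem : ∀ ω, ω ∈ S ↔ P ω := fun ω => by simp [hS]
  have h1 : ∀ Q : Ω → Prop, Nat.card {ω // P ω ∧ Q ω} = (S.filter Q).card := by
    intro Q
    rw [← Nat.card_eq_finsetCard]
    exact Nat.card_congr (Equiv.subtypeEquivRight fun ω => by rw [Finset.mem_filter, hmem])
  rw [h1]
  simp only [h1]
  rw [← Finset.card_biUnion]
  · congr 1
    ext ω
    simp only [Finset.mem_filter, Finset.mem_biUnion, hmem]
    constructor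
    · rintro ⟨h2, h3⟩
      obtain ⟨c, hc, h4⟩ := periodic_monoid hm (h0 ω h2) (hadd ω h2) (hper ω h2)
      exact ⟨c, ⟨Nat.mem_divisors.mpr ⟨hc, hm.ne'⟩, (h4 k).1 h3⟩, h2, h4⟩
    · rintro ⟨c, ⟨_, h3⟩, h2, h4⟩
      exact ⟨h2, (h4 k).2 h3⟩
  · intro c _ c' _ hne
    rw [Function.onFun, Finset.disjoint_left]
    intro ω h2 h3
    have h4 := (Finset.mem_filter.mp h2).2
    have h5 := (Finset.mem_filter.mp h3).2
    exact hne (Nat.dvd_antisymm ((h4 c').1 ((h5 c').2 dvd_rfl)) ((h5 c).1 ((h4 c).2 dvd_rfl)))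

lemma conj_mem_of {N : Subgroup G} {e : G} (he : conjSub e N = N) {n : G} (hn : n ∈ N) :
    e⁻¹ * n * e ∈ N := by
  rw [← mem_conjSub, he]
  exact hn

lemma conj_mem_N {N : Subgroup G} {y x : G} (h : conjSub y N = N) (hx : x ∈ N) :
    y * x * y⁻¹ ∈ N := by
  have h1 := conj_mem_conjSub (g := y) hx
  rwa [h] at h1

theorem numFix_eq [Finite G] (N : Subgroup G) (e : G) (m : ℕ) (he : conjSub e N = N) (hm : 0 < m)
    (hk : ∀ k : ℕ, e ^ k ∈ N ↔ m ∣ k) (H : Subgroup G) (k : ℕ) :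
    numFix N (e ^ k) H = ∑ c ∈ m.divisors.filter (· ∣ k), numStab N e c H := by
  have : Fintype ↥(N ⊓ H) := Fintype.ofFinite _
  have heN : ∀ j : ℕ, conjSub (e ^ j) N = N := fun j =>
    conjSub_eq_iff.2 (pow_mem (conjSub_eq_iff.1 he) j)
  refine card_partition (Ω := ↥(N ⊓ H) → ℂ) (fun ψ => IsIrreducibleCharacter ψ)
    (irr_finite (G := ↥(N ⊓ H)))
    (fun ψ l => ∃ y ∈ H, (e ^ l)⁻¹ * y ∈ N ∧
      ∀ g g' : ↥(N ⊓ H), (g' : G) = y * g * y⁻¹ → ψ g' = ψ g) hm ?_ ?_ ?_ k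
  · intro ψ _
    refine ⟨1, H.one_mem, ?_, ?_⟩
    · rw [mul_one]
      exact N.inv_mem ((hk m).2 dvd_rfl)
    · intro g g' h
      rw [one_mul, inv_one, mul_one] at h
      rw [Subtype.ext h]
  · rintro ψ _ i j ⟨y, hy, hyN, h1⟩ ⟨y', hy', hyN', h2⟩
    refine ⟨y * y', H.mul_mem hy hy', ?_, ?_⟩
    · have h3 : (e ^ (i + j))⁻¹ * (y * y') =
          ((e ^ j)⁻¹ * ((e ^ i)⁻¹ * y) * e ^ j) * ((e ^ j)⁻¹ * y') := by
        rw [pow_add]
        group
      rw [h3]
      exact N.mul_mem (conj_mem_of (heN j) hyN) hyN'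
    · intro g g' h
      have h3 : y' * (g : G) * y'⁻¹ ∈ N ⊓ H := by
        constructor
        · have h4 : conjSub y' N = N := by
            have h5 : y' = e ^ j * ((e ^ j)⁻¹ * y') := by group
            rw [h5, conjSub_mul, conjSub_eq_iff.2 (Subgroup.le_normalizer hyN'), heN]
          exact conj_mem_N h4 g.2.1
        · exact H.mul_mem (H.mul_mem hy' g.2.2) (H.inv_mem hy')
      rw [← h2 g ⟨_, h3⟩ rfl]
      apply h1
      rw [h]
      change y * y' * (g : G) * (y * y')⁻¹ = y * (y' * (g : G) * y'⁻¹) * y⁻¹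
      group
  · intro ψ _ l
    have h1 : ∀ y : G, (e ^ (l + m))⁻¹ * y ∈ N ↔ (e ^ l)⁻¹ * y ∈ N := by
      intro y
      have h2 : (e ^ (l + m))⁻¹ * y = (e ^ m)⁻¹ * ((e ^ l)⁻¹ * y) := by
        rw [pow_add]
        group
      rw [h2]
      exact N.mul_mem_cancel_left (N.inv_mem ((hk m).2 dvd_rfl))
    simp only [h1]

theorem invZero_eq [Finite G] (p : ℕ) (N : Subgroup G) (e : G) (m : ℕ) (he : conjSub e N = N)
    (hm : 0 < m) (hk : ∀ k : ℕ, e ^ k ∈ N ↔ m ∣ k) (k : ℕ) :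
    invZero p N (e ^ k) = ∑ c ∈ m.divisors.filter (· ∣ k), stabZero p N e c := by
  have : Fintype N := Fintype.ofFinite _
  have heN : ∀ j : ℕ, conjSub (e ^ j) N = N := fun j =>
    conjSub_eq_iff.2 (pow_mem (conjSub_eq_iff.1 he) j)
  have hmemN : ∀ (j : ℕ) (g : N), e ^ j * (g : G) * (e ^ j)⁻¹ ∈ N := by
    intro j g
    exact conj_mem_N (heN j) g.2
  have h := card_partition (Ω := N → ℂ) (fun ψ => IsIrreducibleCharacter ψ ∧
    ∃ n : ℕ, ψ 1 = (n : ℂ) ∧ n.factorization p = (Nat.card N).factorization p)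
    ((irr_finite (G := N)).subset fun ψ hψ => hψ.1)
    (fun ψ l => ∀ g g' : N, (g' : G) = e ^ l * g * (e ^ l)⁻¹ → ψ g' = ψ g) hm ?_ ?_ ?_ k
  · unfold invZero stabZero
    simp only [and_assoc] at h
    exact h
  · intro ψ hψ g g' h
    have h1 : e ^ m ∈ N := (hk m).2 dvd_rfl
    have h2 : g' = (⟨e ^ m, h1⟩ : N) * g * (⟨e ^ m, h1⟩ : N)⁻¹ := Subtype.ext h
    rw [h2]
    exact (IsIrrChar.isClass hψ.1) g _
  · intro ψ _ i j h1 h2 g g' h
    rw [← h2 g ⟨_, hmemN j g⟩ rfl]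
    apply h1
    rw [h, pow_add]
    change _ = e ^ i * (e ^ j * (g : G) * (e ^ j)⁻¹) * (e ^ i)⁻¹
    group
  · intro ψ hψ l
    have h1 : e ^ m ∈ N := (hk m).2 dvd_rfl
    constructor
    · intro h2 g g' h
      have h3 := h2 ((⟨e ^ m, h1⟩ : N)⁻¹ * g * (⟨e ^ m, h1⟩ : N)) g' (by
        rw [h]
        change e ^ l * (g : G) * (e ^ l)⁻¹ =
          e ^ (l + m) * ((e ^ m)⁻¹ * (g : G) * e ^ m) * (e ^ (l + m))⁻¹
        rw [pow_add]
        group)
      rw [h3]
      have h4 := (IsIrrChar.isClass hψ.1) g (⟨e ^ m, h1⟩ : N)⁻¹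
      rw [inv_inv] at h4
      exact h4
    · intro h2 g g' h
      have h3 := h2 ((⟨e ^ m, h1⟩ : N) * g * (⟨e ^ m, h1⟩ : N)⁻¹) g' (by
        rw [h]
        change e ^ (l + m) * (g : G) * (e ^ (l + m))⁻¹ =
          e ^ l * (e ^ m * (g : G) * (e ^ m)⁻¹) * (e ^ l)⁻¹
        rw [pow_add]
        group)
      rw [h3]
      exact (IsIrrChar.isClass hψ.1) g _

lemma altSum_sum [Finite G] (N : Subgroup G) (X : Set (Subgroup G)) {ι : Type} (s : Finset ι)
    (F : ι → Set (Subgroup G) → ℤ) :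
    altSum N X (fun σ => ∑ i ∈ s, F i σ) = ∑ i ∈ s, altSum N X (F i) := by
  have : Fintype (Quotient (chSetoid N X)) := Fintype.ofFinite _
  unfold altSum
  simp only [finsum_eq_sum_of_fintype]
  rw [Finset.sum_comm]
  refine Finset.sum_congr rfl fun c _ => ?_
  rw [Finset.mul_sum]

theorem invSum_eq [Finite G] (p : ℕ) (N : Subgroup G) (e : G) (m : ℕ) (he : conjSub e N = N)
    (hm : 0 < m) (hk : ∀ k : ℕ, e ^ k ∈ N ↔ m ∣ k) (k : ℕ) :
    invSum p N (e ^ k) = ∑ c ∈ m.divisors.filter (· ∣ k), stabSum p N e c := by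
  unfold invSum stabSum
  rw [← altSum_sum]
  congr 1
  funext σ
  rw [numFix_eq N e m he hm hk]
  push_cast
  rfl

/-- functions on the divisors are determined by their divisor sums -/
lemma eq_of_sums {m : ℕ} (hm : 0 < m) (f g : ℕ → ℤ)
    (h : ∀ k, k ∣ m → ∑ c ∈ m.divisors.filter (· ∣ k), f c = ∑ c ∈ m.divisors.filter (· ∣ k), g c) :
    ∀ c, c ∣ m → f c = g c := by
  intro c
  induction c using Nat.strong_induction_on with
  | _ c ih =>
    intro hc
    have h1 := h c hc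
    have hmem : c ∈ m.divisors.filter (· ∣ c) := by
      rw [Finset.mem_filter, Nat.mem_divisors]
      exact ⟨⟨hc, hm.ne'⟩, dvd_rfl⟩
    rw [← Finset.add_sum_erase _ _ hmem, ← Finset.add_sum_erase _ _ hmem] at h1
    have h2 : ∑ x ∈ (m.divisors.filter (· ∣ c)).erase c, f x =
        ∑ x ∈ (m.divisors.filter (· ∣ c)).erase c, g x := by
      refine Finset.sum_congr rfl fun x hx => ?_
      obtain ⟨hne, hx⟩ := Finset.mem_erase.mp hx
      obtain ⟨hx1, hx2⟩ := Finset.mem_filter.mp hx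
      have hc0 : 0 < c := Nat.pos_of_dvd_of_pos hc hm
      exact ih x (lt_of_le_of_ne (Nat.le_of_dvd hc0 hx2) hne) (Nat.dvd_of_mem_divisors hx1)
    omega

theorem stab_iff [Finite G] (p : ℕ) (N : Subgroup G) (e : G) (m : ℕ) (he : conjSub e N = N)
    (hm : 0 < m) (hk : ∀ k : ℕ, e ^ k ∈ N ↔ m ∣ k) :
    (∀ c, c ∣ m → stabSum p N e c = (stabZero p N e c : ℤ)) ↔
      ∀ k : ℕ, invSum p N (e ^ k) = (invZero p N (e ^ k) : ℤ) := by
  constructor
  · intro h k
    rw [invSum_eq p N e m he hm hk, invZero_eq p N e m he hm hk]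
    push_cast
    exact Finset.sum_congr rfl fun c hc =>
      h c (Nat.dvd_of_mem_divisors (Finset.mem_filter.mp hc).1)
  · intro h
    refine eq_of_sums hm _ _ fun k _ => ?_
    rw [← invSum_eq p N e m he hm hk, h k, invZero_eq p N e m he hm hk]
    push_cast
    rfl

end Pool.Agent.Y892.DP
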