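import Pool.Agent.Y892.DP.D1
import Pool.Agent.Y892.DP.C3

/-!
# The equivalence for groups with trivial `O_p`
-/

open scoped Classical BigOperators

set_option linter.unusedSectionVars false
set_option linter.style.haveILetI false

noncomputable section

namespace Pool.Agent.Y892.DP

open Pool.Agent.Y63.KR Pool.Agent.Y63.AWC Pool.Agent.Helper884.IC Pool.Agent.Y576.DP

variable {G : Type} [Group G]

lemma kr_zero (hw2 : S_W2) (hkrp : S_KRP) (p : ℕ) [Fact p.Prime] [Finite G] {U : Subgroup G}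
    (hU : IsPGroup p U) (hn : ∀ x : G, conjSub x U = U) (h0 : U ≠ ⊥) : krSum p G = 0 := by
  have h1 := hkrp p G
  have hN : U.Normal := ⟨fun n hn' g => by
    have := conj_mem_conjSub (g := g) hn'
    rwa [hn g] at this⟩
  have h2 : ∀ q : {q : G × G // q.1 * q.2 = q.2 * q.1},
      w (fx (above p (⊥ : Subgroup G)) {q.1.1, q.1.2}) = 0 := by
    intro q
    refine hw2 G _ U ⟨⟨hU, bot_lt_iff_ne_bot.2 h0⟩, fun x _ => hn x⟩ ?_
    rintro P ⟨⟨hP, hP0⟩, hP1⟩
    refine ⟨⟨IsPGroup.to_sup_of_normal_right hP hU, hP0.trans_le le_sup_left⟩, fun x hx => ?_⟩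
    exact nm_sup (hP1 x hx) (hn x)
  simp only [h2, finsum_zero] at h1
  have h5 : (Nat.card G : ℤ) ≠ 0 := by exact_mod_cast Nat.card_pos.ne'
  exact (mul_eq_zero.mp h1).resolve_left h5

/-- the equivalence, for groups with `O_p(N) = 1` and all stabilisers -/
theorem equiv_stab (hw2 : S_W2) (hpair : S_PAIR) (hred : S_RED) (hsl : S_SL) (hjor : S_JOR)
    (hkrn : S_KRN) (hkrp : S_KRP) (hznd : S_ZND) (hdgc : S_DGC) (p : ℕ) [hp : Fact p.Prime] :
    (∀ (G : Type) [Group G] [Finite G] (N : Subgroup G) (e : G) (m c : ℕ), conjSub e N = N →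
      OpTrivial p N → 0 < m → (∀ k : ℕ, e ^ k ∈ N ↔ m ∣ k) → c ∣ m →
      stabSum p N e c = (stabZero p N e c : ℤ)) ↔
    ∀ (G : Type) [Group G] [Finite G], krSum p G = (numDefectZero p G : ℤ) := by
  constructor
  · intro h G _ _
    have : Fintype G := Fintype.ofFinite G
    by_cases hO : OpTrivial p (⊤ : Subgroup G)
    · have hk : ∀ k : ℕ, (1 : G) ^ k ∈ (⊤ : Subgroup G) ↔ 1 ∣ k := fun k => by simp
      have h1 := (stab_iff p (⊤ : Subgroup G) 1 1 (by rw [conjSub_one]) one_pos hk).1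
        (fun c hc => h G ⊤ 1 1 c (by rw [conjSub_one]) hO one_pos hk hc) 1
      rw [pow_one, invZero_top] at h1
      rw [krSum_eq_inv hpair hkrp, h1]
    · unfold OpTrivial at hO
      push Not at hO
      obtain ⟨U, _, h2, h3, h4⟩ := hO
      have hn : ∀ x : G, conjSub x U = U := fun x => h2 x (Subgroup.mem_top x)
      have hN : U.Normal := ⟨fun n hn' g => by
        have := conj_mem_conjSub (g := g) hn'
        rwa [hn g] at this⟩
      rw [kr_zero hw2 hkrp p h3 hn h4, defectZero_normal h3 hN h4]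
      rfl
  · intro h G _ _ N e m c he _ hm hk hc
    have h1 := (equiv_all hpair hred hsl hjor hkrn hkrp hznd hdgc p).2 h
    exact (stab_iff p N e m he hm hk).2
      (fun k => h1 G N (e ^ k) (conj_pow he k)) c hc

end Pool.Agent.Y892.DP
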