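import Pool.Agent.Y63.KR.Limit

/-!
# Alternating sums over chains of `p`-subgroups: definitions

`G` is a group, `conjSub g P = g P g⁻¹`, and `chainStabilizer σ = ⋂_{P ∈ σ} N_G(P)`
(both from `Pool.Agent.Y63.KR.Defs`).
-/

open scoped Classical BigOperators

noncomputable section

namespace Pool.Agent.Y892.DP

open Pool.Agent.Y63.KR Pool.Agent.Y63.AWC

section

variable {G : Type} [Group G]

/-- The chains of members of `X`, the empty chain included: a chain is given by the set of its
members. -/
abbrev Ch (X : Set (Subgroup G)) : Type := {σ : Set (Subgroup G) // σ ⊆ X ∧ IsChain (· ≤ ·) σ}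

theorem conj_equiv (N : Subgroup G) (X : Set (Subgroup G)) :
    Equivalence (fun σ τ : Ch X => ∃ n ∈ N, τ.1 = conjSub n '' σ.1) :=
  { refl := fun σ => ⟨1, N.one_mem, by
      have : (conjSub (1 : G)) = id := funext conjSub_one
      rw [this, Set.image_id]⟩
    symm := by
      rintro σ τ ⟨g, hgN, hg⟩
      refine ⟨g⁻¹, N.inv_mem hgN, ?_⟩
      rw [hg, ← Set.image_comp]
      have : conjSub g⁻¹ ∘ conjSub g = id := funext fun P => by
        rw [Function.comp_apply, ← conjSub_mul, inv_mul_cancel, conjSub_one, id]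
      rw [this, Set.image_id]
    trans := by
      rintro σ τ υ ⟨g, hgN, hg⟩ ⟨h, hhN, hh⟩
      refine ⟨h * g, N.mul_mem hhN hgN, ?_⟩
      rw [hh, hg, ← Set.image_comp]
      congr 1
      exact (funext fun P => conjSub_mul h g P).symm }

/-- Conjugacy under `N` of chains of members of `X`. -/
def chSetoid (N : Subgroup G) (X : Set (Subgroup G)) : Setoid (Ch X) where
  r σ τ := ∃ n ∈ N, τ.1 = conjSub n '' σ.1
  iseqv := conj_equiv N X

/-- The alternating sum `∑_σ (-1)^|σ| F(σ)` over representatives `σ` of the `N`-conjugacy classes of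
chains of members of `X`, the empty chain included; `|σ|` is the number of members of `σ`. -/
def altSum (N : Subgroup G) (X : Set (Subgroup G)) (F : Set (Subgroup G) → ℤ) : ℤ :=
  ∑ᶠ c : Quotient (chSetoid N X), (-1) ^ c.out.1.ncard * F c.out.1

/-- The `p`-subgroups of `G` which properly contain `Z₀`. -/
def above (p : ℕ) (Z₀ : Subgroup G) : Set (Subgroup G) := {P | IsPGroup p P ∧ Z₀ < P}

end

/-- The alternating sum of Knörr and Robinson: `∑_σ (-1)^|σ| k(G_σ)` over the `G`-classes of chains
`σ` of nontrivial `p`-subgroups of `G`, where `k(G_σ)` is the number of conjugacy classes (of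
irreducible characters) of the stabiliser `G_σ` of the chain. -/
def krSum (p : ℕ) (G : Type) [Group G] : ℤ :=
  altSum (⊤ : Subgroup G) (above p ⊥) (fun σ => (Nat.card (ConjClasses (chainStabilizer σ)) : ℤ))

section

variable {G : Type} [Group G]

/-- The number of irreducible characters `θ` of the subgroup `H` lying over the linear character
`lam` of the central subgroup `Z`: `θ(z) = lam(z) θ(1)` for all `z` in `Z` (and in `H`). -/
def numOver {Z : Subgroup G} (lam : Z →* ℂˣ) (H : Subgroup G) : ℕ :=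
  Nat.card {θ : H → ℂ // IsIrreducibleCharacter θ ∧
    ∀ (z : G) (hz : z ∈ Z) (hH : z ∈ H), θ ⟨z, hH⟩ = (lam ⟨z, hz⟩ : ℂ) * θ 1}

/-- The alternating sum of Dade's projective conjecture, summed over all blocks and all defects:
`∑_σ (-1)^|σ| |Irr(G_σ | lam)|` over the `G`-classes of chains `σ` of `p`-subgroups properly
containing `Z₀`. -/
def projSum (p : ℕ) {Z : Subgroup G} (Z₀ : Subgroup G) (lam : Z →* ℂˣ) : ℤ :=
  altSum (⊤ : Subgroup G) (above p Z₀) (fun σ => (numOver lam (chainStabilizer σ) : ℤ))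

/-- The number of irreducible characters `θ` of `G` over `lam` with `|G|_p = |Z₀|_p θ(1)_p`. -/
def projZero (p : ℕ) {Z : Subgroup G} (Z₀ : Subgroup G) (lam : Z →* ℂˣ) : ℕ :=
  Nat.card {θ : G → ℂ // IsIrreducibleCharacter θ ∧ (∀ z : Z, θ z = (lam z : ℂ) * θ 1) ∧
    ∃ n : ℕ, θ 1 = (n : ℂ) ∧
      (Nat.card G).factorization p = (Nat.card Z₀).factorization p + n.factorization p}

/-! ### Auxiliary notions for the proofs -/

/-- the members of `X` normalised by all elements of `S` -/
def fx (X : Set (Subgroup G)) (S : Set G) : Set (Subgroup G) :=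
  {P | P ∈ X ∧ ∀ x ∈ S, conjSub x P = P}

/-- the alternating number of chains of members of `X` -/
def w (X : Set (Subgroup G)) : ℤ := ∑ᶠ σ : Ch X, (-1 : ℤ) ^ σ.1.ncard

/-- `Z₀` is the set of elements of `p`-power order of the (central) subgroup `Z` -/
structure IsSyl (p : ℕ) (Z₀ Z : Subgroup G) : Prop where
  le : Z₀ ≤ Z
  isPGroup : IsPGroup p Z₀
  max : ∀ z ∈ Z, (∃ k : ℕ, z ^ p ^ k = 1) → z ∈ Z₀

/-- the weighted number of pairs with commutator `a` -/
def cc (p : ℕ) (Z₀ : Subgroup G) (a : G) : ℤ :=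
  ∑ᶠ q : {q : G × G // q.1 * q.2 = a * (q.2 * q.1)}, w (fx (above p Z₀) {q.1.1, q.1.2})

end

end Pool.Agent.Y892.DP
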