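import Pool.Agent.Y892.DP.Defs

/-!
# Alternating sums of invariant characters: definitions
-/

open scoped Classical BigOperators

noncomputable section

namespace Pool.Agent.Y892.DP

open Pool.Agent.Y63.KR Pool.Agent.Y63.AWC

variable {G : Type} [Group G]

/-- The nontrivial `p`-subgroups contained in `N`. -/
def inside (p : ℕ) (N : Subgroup G) : Set (Subgroup G) := {P | IsPGroup p P ∧ P ≠ ⊥ ∧ P ≤ N}

/-- The number of the irreducible characters `ψ` of `N ∩ H` fixed by some element `y ∈ H` of the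
coset `e N`. -/
def numFix (N : Subgroup G) (e : G) (H : Subgroup G) : ℕ :=
  Nat.card {ψ : ↥(N ⊓ H) → ℂ // IsIrreducibleCharacter ψ ∧
    ∃ y ∈ H, e⁻¹ * y ∈ N ∧ ∀ g g' : ↥(N ⊓ H), (g' : G) = y * g * y⁻¹ → ψ g' = ψ g}

/-- The alternating sum `∑_σ (-1)^|σ| |{ψ ∈ Irr(N_σ) : ψ^y = ψ for some y ∈ e N ∩ G_σ}|` over the
`N`-classes of chains `σ` of nontrivial `p`-subgroups of `N`; `N_σ = N ∩ G_σ`. -/
def invSum (p : ℕ) (N : Subgroup G) (e : G) : ℤ :=
  altSum N (inside p N) (fun σ => (numFix N e (chainStabilizer σ) : ℤ))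

/-- The number of irreducible characters of `N` of `p`-defect zero fixed by `e`. -/
def invZero (p : ℕ) (N : Subgroup G) (e : G) : ℕ :=
  Nat.card {ψ : N → ℂ // IsIrreducibleCharacter ψ ∧
    (∃ n : ℕ, ψ 1 = (n : ℂ) ∧ n.factorization p = (Nat.card N).factorization p) ∧
    ∀ g g' : N, (g' : G) = e * g * e⁻¹ → ψ g' = ψ g}

/-- Jordan's totient `J₂(m)`: the number of pairs `(i, j)` modulo `m` with `gcd(i, j, m) = 1`. -/
def jordan2 (m : ℕ) : ℕ := Nat.card {v : Fin m × Fin m // Nat.gcd (Nat.gcd v.1 v.2) m = 1}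

/-! ### Auxiliary notions for the proofs -/

/-- the sum over the commuting pairs `(x, y)`, `x ∈ M`, `y ∈ C` -/
def pairs2 (p : ℕ) (M : Subgroup G) (C : Set G) : ℤ :=
  ∑ᶠ q : {q : G × G // q.1 ∈ M ∧ q.2 ∈ C ∧ q.1 * q.2 = q.2 * q.1},
    w (fx (inside p M) {q.1.1, q.1.2})

/-- the sum of `Φ` over the pairs `(x, y)`, `x ∈ e^i N ∩ C`, `y ∈ e^j N ∩ C` -/
def pairSum (N C : Subgroup G) (e : G) (Φ : G → G → ℂ) (i j : ℕ) : ℂ :=
  ∑ᶠ q : {q : G × G // (e ^ i)⁻¹ * q.1 ∈ N ∧ (e ^ j)⁻¹ * q.2 ∈ N ∧ q.1 ∈ C ∧ q.2 ∈ C},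
    Φ q.1.1 q.1.2

/-- the weight of a commuting pair -/
def wt2 (p : ℕ) (M : Subgroup G) (x y : G) : ℂ :=
  if x * y = y * x then (w (fx (inside p M) {x, y}) : ℂ) else 0

/-- the sum of the central idempotents of the characters of defect zero of `N`, as a function -/
def dz (p : ℕ) (N : Subgroup G) (g : G) : ℂ :=
  if h : g ∈ N then
    (Nat.card N : ℂ)⁻¹ * ∑ᶠ ψ : {ψ : N → ℂ // IsIrreducibleCharacter ψ ∧
      ∃ n : ℕ, ψ 1 = (n : ℂ) ∧ n.factorization p = (Nat.card N).factorization p},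
      ψ.1 1 * ψ.1 ⟨g, h⟩
  else 0

end Pool.Agent.Y892.DP
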