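import Pool.Agent.Y892.DP.Defs2

/-!
# Alternating sums of characters with a given stabiliser in a cyclic extension: definitions
-/

open scoped Classical BigOperators

noncomputable section

namespace Pool.Agent.Y892.DP

open Pool.Agent.Y63.KR Pool.Agent.Y63.AWC

variable {G : Type} [Group G]

/-- The number of the irreducible characters `ψ` of `N ∩ H` whose stabiliser in `N⟨e⟩ ∩ H` has image
`⟨e^c N⟩` in `N⟨e⟩ / N`: for every `k`, some element `y ∈ H` of the coset `e^k N` fixes `ψ` if and only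
if `c` divides `k`. -/
def numStab (N : Subgroup G) (e : G) (c : ℕ) (H : Subgroup G) : ℕ :=
  Nat.card {ψ : ↥(N ⊓ H) → ℂ // IsIrreducibleCharacter ψ ∧
    ∀ k : ℕ, (∃ y ∈ H, (e ^ k)⁻¹ * y ∈ N ∧
      ∀ g g' : ↥(N ⊓ H), (g' : G) = y * g * y⁻¹ → ψ g' = ψ g) ↔ c ∣ k}

/-- The alternating sum of Dade's invariant conjecture for the cyclic extension `N⟨e⟩` of `N` and the
subgroup `U = ⟨e^c N⟩` of `N⟨e⟩ / N`, summed over all blocks and all defects. -/
def stabSum (p : ℕ) (N : Subgroup G) (e : G) (c : ℕ) : ℤ :=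
  altSum N (inside p N) (fun σ => (numStab N e c (chainStabilizer σ) : ℤ))

/-- The number of the irreducible characters of `N` of `p`-defect zero whose stabiliser in `N⟨e⟩` has
image `⟨e^c N⟩` in `N⟨e⟩ / N`. -/
def stabZero (p : ℕ) (N : Subgroup G) (e : G) (c : ℕ) : ℕ :=
  Nat.card {ψ : N → ℂ // IsIrreducibleCharacter ψ ∧
    (∃ n : ℕ, ψ 1 = (n : ℂ) ∧ n.factorization p = (Nat.card N).factorization p) ∧
    ∀ k : ℕ, (∀ g g' : N, (g' : G) = e ^ k * g * (e ^ k)⁻¹ → ψ g' = ψ g) ↔ c ∣ k}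

/-- `O_p(N) = 1`: every normal `p`-subgroup of `N` is trivial. -/
def OpTrivial (p : ℕ) (N : Subgroup G) : Prop :=
  ∀ U : Subgroup G, U ≤ N → (∀ n ∈ N, conjSub n U = U) → IsPGroup p U → U = ⊥

end Pool.Agent.Y892.DP
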